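import Pool.Agent.Lib.H85TF.P2
import Pool.Agent.Lib.H47G.Menger

/-!
# H36R, file CP: two vertices of a 2-connected graph are covered by disjoint cycles
-/

set_option autoImplicit false

namespace H36R

open Finset H98M H85TF

/-- Two disjoint connected sets from `A` to `B` (Menger, `k = 2`). -/
theorem two_link {V : Type} (G : SimpleGraph V) (S A B : Finset V) (hA : A ⊆ S) (hB : B ⊆ S)
    (h : ∀ Z U : Finset V, Z ⊆ S → (∀ x ∈ U, x ∈ S ∧ x ∉ Z) → (∀ x ∈ A, x ∉ Z → x ∈ U) →
      (∀ x ∈ U, x ∉ B) → (∀ a ∈ U, ∀ b ∈ S, b ∉ Z → b ∉ U → ¬ G.Adj a b) → 2 ≤ Z.card) :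
    ∃ C D : Finset V, C ⊆ S ∧ D ⊆ S ∧ H47G.Conn G C ∧ H47G.Conn G D ∧ (∃ a ∈ C, a ∈ A) ∧
      (∃ b ∈ C, b ∈ B) ∧ (∃ a ∈ D, a ∈ A) ∧ (∃ b ∈ D, b ∈ B) ∧ ∀ x ∈ C, x ∉ D := by
  classical
  obtain ⟨f, f1, f2, f3, f4, f5⟩ := H47G.menger (G := G) (k := 2) hA hB (by
    intro Z U hs
    refine h Z U hs.zs (fun x hx => ?_) (fun x hx hxZ => hs.au (Finset.mem_sdiff.2 ⟨hx, hxZ⟩))
      (fun x hx hxB => Finset.disjoint_left.1 hs.ub hx hxB) hs.cl
    exact Finset.mem_sdiff.1 (hs.us hx))
  obtain ⟨a, ha⟩ := f3 0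
  obtain ⟨b, hb⟩ := f4 0
  obtain ⟨c, hc⟩ := f3 1
  obtain ⟨d, hd⟩ := f4 1
  exact ⟨f 0, f 1, f1 0, f1 1, f2 0, f2 1, ⟨a, Finset.mem_inter.1 ha⟩, ⟨b, Finset.mem_inter.1 hb⟩,
    ⟨c, Finset.mem_inter.1 hc⟩, ⟨d, Finset.mem_inter.1 hd⟩,
    fun x hx hx' => Finset.disjoint_left.1 (f5 0 1 (by decide)) hx hx'⟩

variable {V : Type*} [DecidableEq V]

/-- Adding a path whose inner vertices have degree `0`; the path is covered. -/
theorem addPath' {E : Finset (Sym2 V)} {d : V} :
    ∀ {x : V} (p : (SimpleGraph.fromEdgeSet (E : Set (Sym2 V))).Walk x d), p.IsPath →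
      ∀ F : Finset (Sym2 V), F ⊆ E → x ≠ d → s(x, d) ∉ F → dg F x = 1 → dg F d = 1 →
      (∀ v, v ≠ x → v ≠ d → dg F v = 0 ∨ dg F v = 2) →
      (∀ r ∈ p.support, r ≠ x → r ≠ d → dg F r = 0) →
      ∃ F' ⊆ E, (∀ v, dg F' v = 0 ∨ dg F' v = 2) ∧ (∀ r ∈ p.support, dg F' r = 2) ∧
        ∀ v, dg F v = 2 → dg F' v = 2 := by
  intro x p
  induction p with
  | nil => intro _ F _ h; exact absurd rfl h
  | @cons x y d h q ih =>
    intro hp F hF hxd hne hx hd hdeg hin
    rw [SimpleGraph.fromEdgeSet_adj] at h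
    obtain ⟨hxy, hxy'⟩ := h
    rw [SimpleGraph.Walk.cons_isPath_iff] at hp
    by_cases hyd : y = d
    · subst hyd
      have key := dg_insert hne
      have hq : q.support = [y] := by
        have h1 := hp.1
        rw [SimpleGraph.Walk.isPath_iff_eq_nil] at h1
        rw [h1]
        rfl
      refine ⟨insert s(x, y) F, insert_subset (by exact_mod_cast hxy) hF, ?_, ?_, ?_⟩
      · intro v
        rw [key v]
        by_cases h1 : v = x
        · subst h1; simp [hx]
        · by_cases h2 : v = y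
          · subst h2; simp [hd]
          · simpa [h1, h2] using hdeg v h1 h2
      · intro r hr
        rw [SimpleGraph.Walk.support_cons, hq] at hr
        simp only [List.mem_cons, List.not_mem_nil, or_false] at hr
        rw [key r]
        rcases hr with rfl | rfl
        · simp [hx]
        · simp [hd]
      · intro v hv
        rw [key v]
        have h1 : v ≠ x := fun e => by subst e; omega
        have h2 : v ≠ y := fun e => by subst e; omega
        simpa [h1, h2] using hv
    · have hy0 : dg F y = 0 := hin y (by simp) (Ne.symm hxy') hyd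
      have hnF : s(x, y) ∉ F := fun h' => by
        have := dg_pos' h'
        omega
      have key := dg_insert hnF
      obtain ⟨F', hF', h1, h2, h4⟩ := ih hp.1 (insert s(x, y) F)
        (insert_subset (by exact_mod_cast hxy) hF) hyd
        (by
          intro h'
          rcases mem_insert.1 h' with h' | h'
          · rw [Sym2.eq_iff] at h'
            rcases h' with h' | h'
            · exact hxy' h'.1.symm
            · exact hxd h'.2.symm
          · have := dg_pos h'
            omega)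
        (by rw [key y]; simp [hy0])
        (by
          rw [key d]
          have h1 : d ≠ x := Ne.symm hxd
          have h2 : d ≠ y := Ne.symm hyd
          simpa [h1, h2] using hd)
        (by
          intro v hv1 hv2
          rw [key v]
          by_cases h1 : v = x
          · subst h1; simp [hx]
          · simpa [h1, hv1] using hdeg v h1 hv2)
        (by
          intro r hr hr1 hr2
          have h1 : r ≠ x := fun e => hp.2 (e ▸ hr)
          rw [key r]
          have := hin r (by simp [hr]) h1 hr2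
          simpa [h1, hr1] using this)
      refine ⟨F', hF', h1, fun r hr => ?_, fun v hv => h4 v ?_⟩
      · rw [SimpleGraph.Walk.support_cons, List.mem_cons] at hr
        rcases hr with rfl | hr
        · exact h4 r (by rw [key r]; simp [hx])
        · exact h2 r hr
      · rw [key v]
        have h5 : v ≠ x := fun e => by subst e; omega
        have h6 : v ≠ y := fun e => by subst e; omega
        simpa [h5, h6] using hv

/-- A connected set is not disconnected. -/
theorem not_disc_of_conn {V : Type} [DecidableEq V] {E : Finset (Sym2 V)} {C : Finset V}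
    (h : H47G.Conn (SimpleGraph.fromEdgeSet (E : Set (Sym2 V))) C) : ¬ Disc C E := by
  rintro ⟨A, B, hA, ⟨b, hb⟩, hAB, rfl, hn⟩
  obtain ⟨x, hx, y, hy, hyA, hxy⟩ := h A subset_union_left hA (by
    intro e
    exact disjoint_left.1 hAB (by rw [e]; exact mem_union_right _ hb) hb)
  rcases mem_union.1 hy with hy | hy
  · exact hyA hy
  · rw [SimpleGraph.fromEdgeSet_adj] at hxy
    exact hn x hx y hy (by exact_mod_cast hxy.1)

/-- A separation of `S = V - {z, w}` with the separator `Z` disconnects `V - Z`. -/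
theorem disc_of_sep {V : Type} [Fintype V] [DecidableEq V] {E : Finset (Sym2 V)} {z w : V}
    (hzw : z ≠ w) (hn : s(z, w) ∉ E) {Z U : Finset V} (hz : z ∉ Z) (hw : w ∉ Z)
    (hU : ∀ x ∈ U, x ≠ z ∧ x ≠ w ∧ x ∉ Z) (hA : ∀ x, s(z, x) ∈ E → x ≠ z → x ≠ w → x ∉ Z → x ∈ U)
    (hB : ∀ x ∈ U, s(w, x) ∉ E)
    (hc : ∀ a ∈ U, ∀ b, b ≠ z → b ≠ w → b ∉ Z → b ∉ U → s(a, b) ∉ E) : Disc (univ \ Z) E := by
  refine ⟨insert z U, (univ \ Z) \ insert z U, insert_nonempty _ _, ⟨w, ?_⟩, disjoint_sdiff, ?_, ?_⟩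
  · rw [mem_sdiff, mem_sdiff, mem_insert]
    exact ⟨⟨mem_univ _, hw⟩, fun h => by
      rcases h with h | h
      · exact hzw h.symm
      · exact (hU w h).2.1 rfl⟩
  · refine union_sdiff_of_subset fun x hx => ?_
    rw [mem_sdiff]
    rcases mem_insert.1 hx with rfl | hx
    · exact ⟨mem_univ _, hz⟩
    · exact ⟨mem_univ _, (hU x hx).2.2⟩
  · intro x hx y hy hxy
    rw [mem_sdiff, mem_sdiff, mem_insert] at hy
    obtain ⟨⟨-, hyZ⟩, hy⟩ := hy
    push Not at hy
    rcases mem_insert.1 hx with rfl | hx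
    · by_cases h1 : y = w
      · subst h1
        exact hn hxy
      · exact hy.2 (hA y hxy hy.1 h1 hyZ)
    · by_cases h1 : y = w
      · subst h1
        exact hB x hx (by rw [Sym2.eq_swap]; exact hxy)
      · exact hc x hx y hy.1 h1 hyZ hy.2 hxy

/-- TWO VERTICES OF A 2-CONNECTED GRAPH are covered by disjoint cycles (in fact by one cycle). -/
theorem cov_pair {V : Type} [Fintype V] [DecidableEq V] {E : Finset (Sym2 V)} (hE : ∀ e ∈ E, ¬ e.IsDiag)
    (h3 : 3 ≤ Fintype.card V) (hc : ¬ Disc univ E) (hcut : ∀ z, ¬ Disc (univ.erase z) E) (z w : V) :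
    Cov E {z, w} := by
  classical
  by_cases hzw : z = w
  · subst hzw
    rw [pair_eq_singleton]
    exact cov_vertex hE h3 hc hcut z
  by_cases hn : s(z, w) ∈ E
  · have hadj : (SimpleGraph.fromEdgeSet (E : Set (Sym2 V))).Adj z w := by
      rw [SimpleGraph.fromEdgeSet_adj]
      exact ⟨by exact_mod_cast hn, hzw⟩
    refine exch hE (A := ∅) (cov_vertex hE h3 hc hcut z) (cov_vertex hE h3 hc hcut w)
      (SimpleGraph.Walk.cons hadj SimpleGraph.Walk.nil) ?_ ?_
    · simp [hzw]
    · intro r hr h1 h2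
      simp only [SimpleGraph.Walk.support_cons, SimpleGraph.Walk.support_nil, List.mem_cons,
        List.not_mem_nil, or_false] at hr
      rcases hr with hr | hr
      · exact absurd hr h1
      · exact absurd hr h2
  set G := SimpleGraph.fromEdgeSet (E : Set (Sym2 V)) with hG
  have hadj : ∀ a b, G.Adj a b ↔ s(a, b) ∈ E ∧ a ≠ b := by
    intro a b
    rw [hG, SimpleGraph.fromEdgeSet_adj]
    exact and_congr (by exact_mod_cast Iff.rfl) Iff.rfl
  obtain ⟨S, hS⟩ : ∃ S : Finset V, ∀ x, x ∈ S ↔ x ≠ z ∧ x ≠ w :=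
    ⟨univ.filter fun x => x ≠ z ∧ x ≠ w, fun x => by simp⟩
  obtain ⟨A, hA⟩ : ∃ A : Finset V, ∀ x, x ∈ A ↔ x ∈ S ∧ s(z, x) ∈ E :=
    ⟨S.filter fun x => s(z, x) ∈ E, fun x => by simp⟩
  obtain ⟨B, hB⟩ : ∃ B : Finset V, ∀ x, x ∈ B ↔ x ∈ S ∧ s(w, x) ∈ E :=
    ⟨S.filter fun x => s(w, x) ∈ E, fun x => by simp⟩
  obtain ⟨C, D, hCS, hDS, hC, hD, ⟨a, haC, haA⟩, ⟨b, hbC, hbB⟩, ⟨c, hcD, hcA⟩, ⟨d, hdD, hdB⟩, hCD⟩ :=
    two_link G S A B (fun x hx => ((hA x).1 hx).1) (fun x hx => ((hB x).1 hx).1) (by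
      intro Z U hZ hU hAU hUB hcl
      by_contra hlt
      have hdisc : Disc (univ \ Z) E := by
        refine disc_of_sep hzw hn (fun h => ((hS z).1 (hZ h)).1 rfl) (fun h => ((hS w).1 (hZ h)).2 rfl)
          (U := U) (fun x hx => ⟨((hS x).1 (hU x hx).1).1, ((hS x).1 (hU x hx).1).2, (hU x hx).2⟩) ?_ ?_ ?_
        · intro x hx h1 h2 h4
          exact hAU x ((hA x).2 ⟨(hS x).2 ⟨h1, h2⟩, hx⟩) h4
        · intro x hx h1
          exact hUB x hx ((hB x).2 ⟨(hU x hx).1, h1⟩)
        · intro x hx y h1 h2 h4 h5 h6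
          refine hcl x hx y ((hS y).2 ⟨h1, h2⟩) h4 h5 ((hadj x y).2 ⟨h6, ?_⟩)
          rintro rfl
          exact h5 hx
      have hcard : Z.card = 0 ∨ Z.card = 1 := by omega
      rcases hcard with h0 | h1
      · rw [card_eq_zero] at h0
        subst h0
        rw [sdiff_empty] at hdisc
        exact hc hdisc
      · obtain ⟨v, rfl⟩ := card_eq_one.1 h1
        rw [sdiff_singleton_eq_erase] at hdisc
        exact hcut v hdisc)
  obtain ⟨p, hp, hpC⟩ := path_of_not_disc (not_disc_of_conn hC) haC hbC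
  obtain ⟨q, hq, hqD⟩ := path_of_not_disc (not_disc_of_conn hD) hdD hcD
  have haz : a ≠ z := ((hS a).1 ((hA a).1 haA).1).1
  have hcz : c ≠ z := ((hS c).1 ((hA c).1 hcA).1).1
  have hbw : G.Adj b w := (hadj b w).2 ⟨by rw [Sym2.eq_swap]; exact ((hB b).1 hbB).2,
    ((hS b).1 ((hB b).1 hbB).1).2⟩
  have hwd : G.Adj w d := (hadj w d).2 ⟨((hB d).1 hdB).2, Ne.symm ((hS d).1 ((hB d).1 hdB).1).2⟩
  have hac : a ≠ c := by
    rintro rfl
    exact hCD a haC hcD
  set r := p.append (SimpleGraph.Walk.cons hbw (SimpleGraph.Walk.cons hwd q)) with hr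
  have hsup : r.support = p.support ++ (w :: q.support) := by
    rw [hr, SimpleGraph.Walk.support_append]
    simp
  have hrp : r.IsPath := by
    rw [SimpleGraph.Walk.isPath_def, hsup]
    refine List.Nodup.append (by rw [← SimpleGraph.Walk.isPath_def]; exact hp) ?_ ?_
    · rw [List.nodup_cons]
      exact ⟨fun h => ((hS w).1 (hDS (hqD w h))).2 rfl, by rw [← SimpleGraph.Walk.isPath_def]; exact hq⟩
    · intro x hx hx'
      rcases List.mem_cons.1 hx' with rfl | hx'
      · exact ((hS x).1 (hCS (hpC x hx))).2 rfl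
      · exact hCD x (hpC x hx) (hqD x hx')
  have hrz : ∀ x ∈ r.support, x ≠ z := by
    intro x hx
    rw [hsup, List.mem_append, List.mem_cons] at hx
    rcases hx with hx | rfl | hx
    · exact ((hS x).1 (hCS (hpC x hx))).1
    · exact Ne.symm hzw
    · exact ((hS x).1 (hDS (hqD x hx))).1
  have hza := ((hA a).1 haA).2
  have hzc := ((hA c).1 hcA).2
  have hn1 : s(z, c) ∉ (∅ : Finset (Sym2 V)) := notMem_empty _
  have hn2 : s(z, a) ∉ insert s(z, c) (∅ : Finset (Sym2 V)) := by
    intro h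
    rcases mem_insert.1 h with h | h
    · rw [Sym2.eq_iff] at h
      rcases h with h | h
      · exact hac h.2
      · exact hcz h.1.symm
    · exact notMem_empty _ h
  have key : ∀ x, dg (insert s(z, a) (insert s(z, c) (∅ : Finset (Sym2 V)))) x =
      (if x = z ∨ x = c then 1 else 0) + if x = z ∨ x = a then 1 else 0 := by
    intro x
    rw [dg_insert hn2, dg_insert hn1]
    simp [dg]
  obtain ⟨F', h1, h2, h4, h5⟩ := addPath' r hrp (insert s(z, a) (insert s(z, c) ∅))
    (insert_subset hza (insert_subset hzc (empty_subset _))) hac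
    (by
      intro h
      rcases mem_insert.1 h with h | h
      · rw [Sym2.eq_iff] at h
        rcases h with h | h
        · exact haz h.1
        · exact hcz h.2
      · rcases mem_insert.1 h with h | h
        · rw [Sym2.eq_iff] at h
          rcases h with h | h
          · exact haz h.1
          · exact hac h.1
        · exact notMem_empty _ h)
    (by rw [key]; simp [haz, hac])
    (by rw [key]; simp [hcz, Ne.symm hac])
    (by
      intro x hx1 hx2
      rw [key]
      by_cases hx : x = z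
      · subst hx; simp
      · simp [hx, hx1, hx2])
    (by
      intro x hx hx1 hx2
      rw [key]
      simp [hrz x hx, hx1, hx2])
  refine ⟨F', h1, h2, fun x hx => ?_⟩
  rcases mem_insert.1 hx with rfl | hx
  · exact h5 x (by rw [key]; simp)
  · rw [mem_singleton.1 hx]
    exact h4 w (by rw [hsup]; simp)

end H36R
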