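import Pool.Agent.Lib.H36R.PR

/-!
# H36R, file CQ: two vertices of a 2-connected graph are covered by disjoint cycles of length at least four
-/

set_option autoImplicit false

namespace H36R

open Finset H98M H85TF

variable {V : Type*} [DecidableEq V]

/-- `F` has no triangle. -/
def TFf {V : Type*} (F : Finset (Sym2 V)) : Prop := ∀ a b c : V, s(a, b) ∈ F → s(b, c) ∈ F → s(a, c) ∉ F

theorem tri_closed_one {F : Finset (Sym2 V)} (hE : ∀ e ∈ F, ¬ e.IsDiag)
    (hdg : ∀ v, dg F v = 0 ∨ dg F v = 2) {x y u : V} (hxy : s(x, y) ∈ F) (hxu : s(x, u) ∈ F)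
    (hyu : y ≠ u) {v : V} (hv : s(x, v) ∈ F) : v = y ∨ v = u := by
  have _ := hE
  by_contra hcon
  push Not at hcon
  have h2 : dg F x = 2 := by
    rcases hdg x with h | h
    · exact absurd h (dg_pos hxy).ne'
    · exact h
  have hsub : ({s(x, y), s(x, u), s(x, v)} : Finset (Sym2 V)) ⊆ F.filter fun e => x ∈ e := by
    intro e he
    simp only [mem_insert, mem_singleton] at he
    rcases he with rfl | rfl | rfl
    · exact mem_filter.2 ⟨hxy, by simp⟩
    · exact mem_filter.2 ⟨hxu, by simp⟩
    · exact mem_filter.2 ⟨hv, by simp⟩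
  have hinj : ∀ p q : V, s(x, p) = s(x, q) → p = q := by
    intro p q h
    rcases Sym2.eq_iff.1 h with h | h
    · exact h.2
    · exact h.2.trans h.1
  have hc : ({s(x, y), s(x, u), s(x, v)} : Finset (Sym2 V)).card = 3 := by
    rw [card_insert_of_notMem, card_insert_of_notMem, card_singleton]
    · rw [mem_singleton]
      exact fun h => hcon.2 (hinj _ _ h).symm
    · rw [mem_insert, mem_singleton]
      rintro (h | h)
      · exact hyu (hinj _ _ h)
      · exact hcon.1 (hinj _ _ h).symm
  have h3 := card_le_card hsub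
  unfold dg at h2
  omega

theorem tri_closed {F : Finset (Sym2 V)} (hE : ∀ e ∈ F, ¬ e.IsDiag)
    (hdg : ∀ v, dg F v = 0 ∨ dg F v = 2) {x y u : V} (hxy : s(x, y) ∈ F) (hyu : s(y, u) ∈ F)
    (hxu : s(x, u) ∈ F) :
    ∀ a ∈ ({x, y, u} : Finset V), ∀ b, s(a, b) ∈ F → b ∈ ({x, y, u} : Finset V) := by
  have h1 : x ≠ y := fun e => hE _ hxy (by simpa using e)
  have h2 : y ≠ u := fun e => hE _ hyu (by simpa using e)
  have h3 : x ≠ u := fun e => hE _ hxu (by simpa using e)
  intro a ha b hab
  simp only [mem_insert, mem_singleton] at ha ⊢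
  rcases ha with rfl | rfl | rfl
  · rcases tri_closed_one hE hdg hxy hxu h2 hab with h | h
    · exact Or.inr (Or.inl h)
    · exact Or.inr (Or.inr h)
  · rcases tri_closed_one hE hdg (y := x) (u := u) (by rw [Sym2.eq_swap]; exact hxy) hyu h3 hab with h | h
    · exact Or.inl h
    · exact Or.inr (Or.inr h)
  · rcases tri_closed_one hE hdg (y := x) (u := y) (by rw [Sym2.eq_swap]; exact hxu)
      (by rw [Sym2.eq_swap]; exact hyu) h1 hab with h | h
    · exact Or.inl h
    · exact Or.inr (Or.inl h)

theorem walk_closed {F : Finset (Sym2 V)} {T : Finset V} (hT : ∀ a ∈ T, ∀ b, s(a, b) ∈ F → b ∈ T)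
    {G : SimpleGraph V} {u v : V} (p : G.Walk u v) :
    (∀ e ∈ p.edges, e ∈ F) → ∀ x ∈ p.support, (x ∈ T ↔ u ∈ T) := by
  induction p with
  | nil =>
    intro _ x hx
    rw [SimpleGraph.Walk.support_nil, List.mem_singleton] at hx
    rw [hx]
  | @cons a b c h q ih =>
    intro he x hx
    have h1 : s(a, b) ∈ F := he _ (by simp)
    have h2 := ih (fun e h' => he e (by simp [h']))
    have hab : a ∈ T ↔ b ∈ T :=
      ⟨fun h' => hT a h' b h1, fun h' => hT b h' a (by rw [Sym2.eq_swap]; exact h1)⟩
    rw [SimpleGraph.Walk.support_cons, List.mem_cons] at hx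
    rcases hx with rfl | hx
    · exact Iff.rfl
    · rw [h2 x hx, hab]

/-- Adding a path whose inner vertices have degree `0`; the path is covered. -/
theorem addPath2 {E : Finset (Sym2 V)} {d : V} :
    ∀ {x : V} (p : (SimpleGraph.fromEdgeSet (E : Set (Sym2 V))).Walk x d), p.IsPath →
      ∀ F : Finset (Sym2 V), F ⊆ E → x ≠ d → s(x, d) ∉ F → dg F x = 1 → dg F d = 1 →
      (∀ v, v ≠ x → v ≠ d → dg F v = 0 ∨ dg F v = 2) →
      (∀ r ∈ p.support, r ≠ x → r ≠ d → dg F r = 0) →
      ∃ F' ⊆ E, (∀ v, dg F' v = 0 ∨ dg F' v = 2) ∧ (∀ r ∈ p.support, dg F' r = 2) ∧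
        (∀ v, dg F v = 2 → dg F' v = 2) ∧ F ⊆ F' ∧ (∀ e ∈ p.edges, e ∈ F') ∧
        ∀ v, dg F' v ≠ 0 → dg F v ≠ 0 ∨ v ∈ p.support := by
  intro x p
  induction p with
  | nil => intro _ F _ h; exact absurd rfl h
  | @cons x y d h q ih =>
    intro hp F hF hxd hne hx hd hdeg hin
    rw [SimpleGraph.fromEdgeSet_adj] at h
    obtain ⟨hxy, hxy'⟩ := h
    rw [SimpleGraph.Walk.cons_isPath_iff] at hp
    by_cases hyd : y = d
    · subst hyd
      have key := dg_insert hne
      have hq : q.support = [y] := by
        have h1 := hp.1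
        rw [SimpleGraph.Walk.isPath_iff_eq_nil] at h1
        rw [h1]
        rfl
      have hqe : q.edges = [] := by
        have h1 := hp.1
        rw [SimpleGraph.Walk.isPath_iff_eq_nil] at h1
        rw [h1]
        rfl
      refine ⟨insert s(x, y) F, insert_subset (by exact_mod_cast hxy) hF, ?_, ?_, ?_,
        subset_insert _ _, ?_, ?_⟩
      · intro v
        rw [key v]
        by_cases h1 : v = x
        · subst h1; simp [hx]
        · by_cases h2 : v = y
          · subst h2; simp [hd]
          · simpa [h1, h2] using hdeg v h1 h2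
      · intro r hr
        rw [SimpleGraph.Walk.support_cons, hq] at hr
        simp only [List.mem_cons, List.not_mem_nil, or_false] at hr
        rw [key r]
        rcases hr with rfl | rfl
        · simp [hx]
        · simp [hd]
      · intro v hv
        rw [key v]
        have h1 : v ≠ x := fun e => by subst e; omega
        have h2 : v ≠ y := fun e => by subst e; omega
        simpa [h1, h2] using hv
      · intro e he
        rw [SimpleGraph.Walk.edges_cons, hqe] at he
        simp only [List.mem_cons, List.not_mem_nil, or_false] at he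
        rw [he]
        exact mem_insert_self _ _
      · intro v hv
        rw [key v] at hv
        rw [SimpleGraph.Walk.support_cons, hq]
        by_cases h1 : v = x
        · exact Or.inr (by simp [h1])
        · by_cases h2 : v = y
          · exact Or.inr (by simp [h2])
          · left
            simpa [h1, h2] using hv
    · have hy0 : dg F y = 0 := hin y (by simp) (Ne.symm hxy') hyd
      have hnF : s(x, y) ∉ F := fun h' => by
        have := dg_pos' h'
        omega
      have key := dg_insert hnF
      obtain ⟨F', hF', h1, h2, h4, h7, h8, h9⟩ := ih hp.1 (insert s(x, y) F)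
        (insert_subset (by exact_mod_cast hxy) hF) hyd
        (by
          intro h'
          rcases mem_insert.1 h' with h' | h'
          · rw [Sym2.eq_iff] at h'
            rcases h' with h' | h'
            · exact hxy' h'.1.symm
            · exact hxd h'.2.symm
          · have := dg_pos h'
            omega)
        (by rw [key y]; simp [hy0])
        (by
          rw [key d]
          have h1 : d ≠ x := Ne.symm hxd
          have h2 : d ≠ y := Ne.symm hyd
          simpa [h1, h2] using hd)
        (by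
          intro v hv1 hv2
          rw [key v]
          by_cases h1 : v = x
          · subst h1; simp [hx]
          · simpa [h1, hv1] using hdeg v h1 hv2)
        (by
          intro r hr hr1 hr2
          have h1 : r ≠ x := fun e => hp.2 (e ▸ hr)
          rw [key r]
          have := hin r (by simp [hr]) h1 hr2
          simpa [h1, hr1] using this)
      refine ⟨F', hF', h1, fun r hr => ?_, fun v hv => h4 v ?_, (subset_insert _ _).trans h7, ?_, ?_⟩
      · rw [SimpleGraph.Walk.support_cons, List.mem_cons] at hr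
        rcases hr with rfl | hr
        · exact h4 r (by rw [key r]; simp [hx])
        · exact h2 r hr
      · rw [key v]
        have h5 : v ≠ x := fun e => by subst e; omega
        have h6 : v ≠ y := fun e => by subst e; omega
        simpa [h5, h6] using hv
      · intro e he
        rw [SimpleGraph.Walk.edges_cons] at he
        rcases List.mem_cons.1 he with rfl | he
        · exact h7 (mem_insert_self _ _)
        · exact h8 e he
      · intro v hv
        rw [SimpleGraph.Walk.support_cons]
        rcases h9 v hv with h10 | h10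
        · rw [key v] at h10
          by_cases h11 : v = x
          · exact Or.inr (by simp [h11])
          · by_cases h12 : v = y
            · exact Or.inr (by simp [h12])
            · left
              simpa [h11, h12] using h10
        · exact Or.inr (List.mem_cons_of_mem _ h10)

/-- Two non-adjacent vertices of a 2-connected graph are covered by disjoint cycles of length at least four. -/
theorem cov_pair_tf {V : Type} [Fintype V] [DecidableEq V] {E : Finset (Sym2 V)} (hE : ∀ e ∈ E, ¬ e.IsDiag)
    (hc : ¬ Disc univ E) (hcut : ∀ z, ¬ Disc (univ.erase z) E) {z w : V}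
    (hzw : z ≠ w) (hn : s(z, w) ∉ E) :
    ∃ F ⊆ E, TFf F ∧ (∀ v, dg F v = 0 ∨ dg F v = 2) ∧ dg F z = 2 ∧ dg F w = 2 := by
  classical
  set G := SimpleGraph.fromEdgeSet (E : Set (Sym2 V)) with hG
  have hadj : ∀ a b, G.Adj a b ↔ s(a, b) ∈ E ∧ a ≠ b := by
    intro a b
    rw [hG, SimpleGraph.fromEdgeSet_adj]
    exact and_congr (by exact_mod_cast Iff.rfl) Iff.rfl
  obtain ⟨S, hS⟩ : ∃ S : Finset V, ∀ x, x ∈ S ↔ x ≠ z ∧ x ≠ w :=
    ⟨univ.filter fun x => x ≠ z ∧ x ≠ w, fun x => by simp⟩
  obtain ⟨A, hA⟩ : ∃ A : Finset V, ∀ x, x ∈ A ↔ x ∈ S ∧ s(z, x) ∈ E :=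
    ⟨S.filter fun x => s(z, x) ∈ E, fun x => by simp⟩
  obtain ⟨B, hB⟩ : ∃ B : Finset V, ∀ x, x ∈ B ↔ x ∈ S ∧ s(w, x) ∈ E :=
    ⟨S.filter fun x => s(w, x) ∈ E, fun x => by simp⟩
  obtain ⟨C, D, hCS, hDS, hC, hD, ⟨a, haC, haA⟩, ⟨b, hbC, hbB⟩, ⟨c, hcD, hcA⟩, ⟨d, hdD, hdB⟩, hCD⟩ :=
    two_link G S A B (fun x hx => ((hA x).1 hx).1) (fun x hx => ((hB x).1 hx).1) (by
      intro Z U hZ hU hAU hUB hcl
      by_contra hlt
      have hdisc : Disc (univ \ Z) E := by
        refine disc_of_sep hzw hn (fun h => ((hS z).1 (hZ h)).1 rfl) (fun h => ((hS w).1 (hZ h)).2 rfl)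
          (U := U) (fun x hx => ⟨((hS x).1 (hU x hx).1).1, ((hS x).1 (hU x hx).1).2, (hU x hx).2⟩) ?_ ?_ ?_
        · intro x hx h1 h2 h4
          exact hAU x ((hA x).2 ⟨(hS x).2 ⟨h1, h2⟩, hx⟩) h4
        · intro x hx h1
          exact hUB x hx ((hB x).2 ⟨(hU x hx).1, h1⟩)
        · intro x hx y h1 h2 h4 h5 h6
          refine hcl x hx y ((hS y).2 ⟨h1, h2⟩) h4 h5 ((hadj x y).2 ⟨h6, ?_⟩)
          rintro rfl
          exact h5 hx
      have hcard : Z.card = 0 ∨ Z.card = 1 := by omega
      rcases hcard with h0 | h1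
      · rw [card_eq_zero] at h0
        subst h0
        rw [sdiff_empty] at hdisc
        exact hc hdisc
      · obtain ⟨v, rfl⟩ := card_eq_one.1 h1
        rw [sdiff_singleton_eq_erase] at hdisc
        exact hcut v hdisc)
  obtain ⟨p, hp, hpC⟩ := path_of_not_disc (not_disc_of_conn hC) haC hbC
  obtain ⟨q, hq, hqD⟩ := path_of_not_disc (not_disc_of_conn hD) hdD hcD
  have haz : a ≠ z := ((hS a).1 ((hA a).1 haA).1).1
  have hcz : c ≠ z := ((hS c).1 ((hA c).1 hcA).1).1
  have hbw : G.Adj b w := (hadj b w).2 ⟨by rw [Sym2.eq_swap]; exact ((hB b).1 hbB).2,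
    ((hS b).1 ((hB b).1 hbB).1).2⟩
  have hwd : G.Adj w d := (hadj w d).2 ⟨((hB d).1 hdB).2, Ne.symm ((hS d).1 ((hB d).1 hdB).1).2⟩
  have hac : a ≠ c := by
    rintro rfl
    exact hCD a haC hcD
  set r := p.append (SimpleGraph.Walk.cons hbw (SimpleGraph.Walk.cons hwd q)) with hr
  have hsup : r.support = p.support ++ (w :: q.support) := by
    rw [hr, SimpleGraph.Walk.support_append]
    simp
  have hrp : r.IsPath := by
    rw [SimpleGraph.Walk.isPath_def, hsup]
    refine List.Nodup.append (by rw [← SimpleGraph.Walk.isPath_def]; exact hp) ?_ ?_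
    · rw [List.nodup_cons]
      exact ⟨fun h => ((hS w).1 (hDS (hqD w h))).2 rfl, by rw [← SimpleGraph.Walk.isPath_def]; exact hq⟩
    · intro x hx hx'
      rcases List.mem_cons.1 hx' with rfl | hx'
      · exact ((hS x).1 (hCS (hpC x hx))).2 rfl
      · exact hCD x (hpC x hx) (hqD x hx')
  have hrz : ∀ x ∈ r.support, x ≠ z := by
    intro x hx
    rw [hsup, List.mem_append, List.mem_cons] at hx
    rcases hx with hx | rfl | hx
    · exact ((hS x).1 (hCS (hpC x hx))).1
    · exact Ne.symm hzw
    · exact ((hS x).1 (hDS (hqD x hx))).1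
  have hza := ((hA a).1 haA).2
  have hzc := ((hA c).1 hcA).2
  have hn1 : s(z, c) ∉ (∅ : Finset (Sym2 V)) := notMem_empty _
  have hn2 : s(z, a) ∉ insert s(z, c) (∅ : Finset (Sym2 V)) := by
    intro h
    rcases mem_insert.1 h with h | h
    · rw [Sym2.eq_iff] at h
      rcases h with h | h
      · exact hac h.2
      · exact hcz h.1.symm
    · exact notMem_empty _ h
  have key : ∀ x, dg (insert s(z, a) (insert s(z, c) (∅ : Finset (Sym2 V)))) x =
      (if x = z ∨ x = c then 1 else 0) + if x = z ∨ x = a then 1 else 0 := by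
    intro x
    rw [dg_insert hn2, dg_insert hn1]
    simp [dg]
  obtain ⟨F', h1, h2, h4, h5, h6, h7, h8⟩ := addPath2 r hrp (insert s(z, a) (insert s(z, c) ∅))
    (insert_subset hza (insert_subset hzc (empty_subset _))) hac
    (by
      intro h
      rcases mem_insert.1 h with h | h
      · rw [Sym2.eq_iff] at h
        rcases h with h | h
        · exact haz h.1
        · exact hcz h.2
      · rcases mem_insert.1 h with h | h
        · rw [Sym2.eq_iff] at h
          rcases h with h | h
          · exact haz h.1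
          · exact hac h.1
        · exact notMem_empty _ h)
    (by rw [key]; simp [haz, hac])
    (by rw [key]; simp [hcz, Ne.symm hac])
    (by
      intro x hx1 hx2
      rw [key]
      by_cases hx : x = z
      · subst hx; simp
      · simp [hx, hx1, hx2])
    (by
      intro x hx hx1 hx2
      rw [key]
      simp [hrz x hx, hx1, hx2])
  have hz2 : dg F' z = 2 := h5 z (by rw [key]; simp)
  have hw2 : dg F' w = 2 := h4 w (by rw [hsup]; simp)
  refine ⟨F', h1, ?_, h2, hz2, hw2⟩
  intro x y u hxy hyu hxu
  have hcl := tri_closed (fun e he => hE e (h1 he)) h2 hxy hyu hxu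
  have hwalk := walk_closed (F := F') (T := {x, y, u}) hcl r h7
  have hne : x ≠ y := fun e => hE _ (h1 hxy) (by simpa using e)
  have hin : ∀ v, dg F' v ≠ 0 → v ≠ z → v ∈ r.support := by
    intro v hv hvz
    rcases h8 v hv with h9 | h9
    · rw [key] at h9
      by_cases h10 : v = c
      · rw [h10]
        exact r.end_mem_support
      · by_cases h11 : v = a
        · rw [h11]
          exact r.start_mem_support
        · exact absurd (by simp [hvz, h10, h11]) h9
    · exact h9
  have hx0 : dg F' x ≠ 0 := (dg_pos hxy).ne'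
  have hy0 : dg F' y ≠ 0 := (dg_pos' hxy).ne'
  have haT : a ∈ ({x, y, u} : Finset V) := by
    by_cases hxz : x = z
    · have h9 := hin y hy0 (fun e => hne (hxz.trans e.symm))
      exact (hwalk y h9).1 (by simp)
    · exact (hwalk x (hin x hx0 hxz)).1 (by simp)
  have hall : ∀ v ∈ r.support, v ∈ ({x, y, u} : Finset V) := fun v hv => (hwalk v hv).2 haT
  have hzT : z ∈ ({x, y, u} : Finset V) := hcl a haT z (by
    rw [Sym2.eq_swap]
    exact h6 (mem_insert_self _ _))
  have hcT : c ∈ ({x, y, u} : Finset V) := hall c r.end_mem_support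
  have hwT : w ∈ ({x, y, u} : Finset V) := hall w (by rw [hsup]; simp)
  have haw : a ≠ w := ((hS a).1 ((hA a).1 haA).1).2
  have hcw : c ≠ w := ((hS c).1 ((hA c).1 hcA).1).2
  have hsub : ({z, a, c, w} : Finset V) ⊆ {x, y, u} := by
    intro v hv
    simp only [mem_insert, mem_singleton] at hv
    rcases hv with rfl | rfl | rfl | rfl
    · exact hzT
    · exact haT
    · exact hcT
    · exact hwT
  have hc4 : ({z, a, c, w} : Finset V).card = 4 := by
    rw [card_insert_of_notMem, card_insert_of_notMem, card_insert_of_notMem, card_singleton]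
    · simpa using hcw
    · simp [hac, haw]
    · simp [Ne.symm haz, Ne.symm hcz, hzw]
  have hc3 : ({x, y, u} : Finset V).card ≤ 3 := card_le_three
  have := card_le_card hsub
  omega

end H36R
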