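import Pool.Agent.Lib.H36R.CP
import Pool.Agent.Lib.LD.Def

/-!
# H36R, file CY: two vertices of a 2-connected graph on a vertex set `Y` are covered by disjoint cycles (S3)
-/

set_option autoImplicit false

namespace H36R

open Finset H98M H85TF

/-- Every vertex of a 2-connected graph on `Y` is on a cycle. -/
theorem cov_vertexY {V : Type*} [DecidableEq V] {E : Finset (Sym2 V)} {Y : Finset V}
    (hE : ∀ e ∈ E, ¬ e.IsDiag) (hsub : ∀ e ∈ E, ∀ v ∈ e, v ∈ Y)
    (h3 : 3 ≤ Y.card) (hc : ¬ Disc Y E) (hcut : ∀ z ∈ Y, ¬ Disc (Y.erase z) E) {v : V} (hv : v ∈ Y) :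
    Cov E {v} := by
  classical
  obtain ⟨u, hu⟩ : ∃ u, s(v, u) ∈ E := by
    by_contra hcon
    push Not at hcon
    refine hc ⟨{v}, Y.erase v, singleton_nonempty v, ?_, ?_, ?_, ?_⟩
    · rw [← card_pos, card_erase_of_mem hv]
      omega
    · simp
    · rw [← insert_eq, insert_erase hv]
    · intro x hx y _
      rw [mem_singleton.1 hx]
      exact hcon y
  have huv : v ≠ u := fun e => hE _ hu (by simpa using e)
  have huY : u ∈ Y := hsub _ hu u (by simp)
  obtain ⟨w, hwu, hw⟩ : ∃ w, w ≠ u ∧ s(v, w) ∈ E := by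
    by_contra hcon
    push Not at hcon
    refine hcut u huY ⟨{v}, (Y.erase u).erase v, singleton_nonempty v, ?_, ?_, ?_, ?_⟩
    · rw [← card_pos, card_erase_of_mem (mem_erase.2 ⟨huv, hv⟩), card_erase_of_mem huY]
      omega
    · simp
    · rw [← insert_eq, insert_erase (mem_erase.2 ⟨huv, hv⟩)]
    · intro x hx y hy
      rw [mem_singleton.1 hx]
      rw [mem_erase, mem_erase] at hy
      exact hcon y hy.2.1
  have hwv : v ≠ w := fun e => hE _ hw (by simpa using e)
  have hwY : w ∈ Y := hsub _ hw w (by simp)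
  obtain ⟨p, hp, hpU⟩ := path_of_not_disc (hcut v hv) (b := u) (d := w)
    (mem_erase.2 ⟨Ne.symm huv, huY⟩) (mem_erase.2 ⟨Ne.symm hwv, hwY⟩)
  have hn1 : s(v, w) ∉ (∅ : Finset (Sym2 V)) := notMem_empty _
  have hn2 : s(v, u) ∉ insert s(v, w) (∅ : Finset (Sym2 V)) := by
    intro h
    rcases mem_insert.1 h with h | h
    · rw [Sym2.eq_iff] at h
      rcases h with h | h
      · exact hwu h.2.symm
      · exact huv h.2.symm
    · exact notMem_empty _ h
  have key : ∀ x, dg (insert s(v, u) (insert s(v, w) (∅ : Finset (Sym2 V)))) x =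
      (if x = v ∨ x = w then 1 else 0) + if x = v ∨ x = u then 1 else 0 := by
    intro x
    rw [dg_insert hn2, dg_insert hn1]
    simp [dg]
  have hv2 : dg (insert s(v, u) (insert s(v, w) (∅ : Finset (Sym2 V)))) v = 2 := by
    rw [key]; simp
  obtain ⟨F', h1, h2, h4, h5, h6⟩ := addPath p hp (insert s(v, u) (insert s(v, w) ∅))
    (insert_subset hu (insert_subset hw (empty_subset _))) (Ne.symm hwu)
    (by
      intro h
      rcases mem_insert.1 h with h | h
      · rw [Sym2.eq_iff] at h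
        rcases h with h | h
        · exact huv h.1.symm
        · exact hwv h.2.symm
      · rcases mem_insert.1 h with h | h
        · rw [Sym2.eq_iff] at h
          rcases h with h | h
          · exact huv h.1.symm
          · exact hwu h.1.symm
        · exact notMem_empty _ h)
    (by rw [key]; simp [Ne.symm huv, Ne.symm hwu])
    (by rw [key]; simp [Ne.symm hwv, hwu])
    (by
      intro x hx1 hx2
      rw [key]
      by_cases hx : x = v
      · subst hx; simp
      · simp [hx, hx1, hx2])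
    (by
      intro r hr hr1 hr2
      have hrv : r ≠ v := (mem_erase.1 (hpU r hr)).1
      rw [key]
      simp [hrv, hr1, hr2])
  refine ⟨F', h1, h2, fun x hx => ?_⟩
  rw [mem_singleton.1 hx]
  exact h6 v hv2

/-- A separation of `S = Y - {z, w}` with the separator `Z` disconnects `Y - Z`. -/
theorem disc_of_sepY {V : Type} [DecidableEq V] {E : Finset (Sym2 V)} {Y : Finset V} {z w : V}
    (hzY : z ∈ Y) (hwY : w ∈ Y) (hzw : z ≠ w) (hn : s(z, w) ∉ E) {Z U : Finset V} (hz : z ∉ Z) (hw : w ∉ Z)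
    (hU : ∀ x ∈ U, x ∈ Y ∧ x ≠ z ∧ x ≠ w ∧ x ∉ Z)
    (hA : ∀ x ∈ Y, s(z, x) ∈ E → x ≠ z → x ≠ w → x ∉ Z → x ∈ U)
    (hB : ∀ x ∈ U, s(w, x) ∉ E)
    (hc : ∀ a ∈ U, ∀ b ∈ Y, b ≠ z → b ≠ w → b ∉ Z → b ∉ U → s(a, b) ∉ E) : Disc (Y \ Z) E := by
  refine ⟨insert z U, (Y \ Z) \ insert z U, insert_nonempty _ _, ⟨w, ?_⟩, disjoint_sdiff, ?_, ?_⟩
  · rw [mem_sdiff, mem_sdiff, mem_insert]
    exact ⟨⟨hwY, hw⟩, fun h => by
      rcases h with h | h
      · exact hzw h.symm
      · exact (hU w h).2.2.1 rfl⟩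
  · refine union_sdiff_of_subset fun x hx => ?_
    rw [mem_sdiff]
    rcases mem_insert.1 hx with rfl | hx
    · exact ⟨hzY, hz⟩
    · exact ⟨(hU x hx).1, (hU x hx).2.2.2⟩
  · intro x hx y hy hxy
    rw [mem_sdiff, mem_sdiff, mem_insert] at hy
    obtain ⟨⟨hyY, hyZ⟩, hy⟩ := hy
    push Not at hy
    rcases mem_insert.1 hx with rfl | hx
    · by_cases h1 : y = w
      · subst h1
        exact hn hxy
      · exact hy.2 (hA y hyY hxy hy.1 h1 hyZ)
    · by_cases h1 : y = w
      · subst h1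
        exact hB x hx (by rw [Sym2.eq_swap]; exact hxy)
      · exact hc x hx y hyY hy.1 h1 hyZ hy.2 hxy

/-- (S3) TWO VERTICES OF A 2-CONNECTED GRAPH on `Y` are covered by disjoint cycles. -/
theorem cov_pairY {V : Type} [DecidableEq V] {E : Finset (Sym2 V)} {Y : Finset V}
    (hE : ∀ e ∈ E, ¬ e.IsDiag) (hYE : ∀ e ∈ E, ∀ v ∈ e, v ∈ Y) (h3 : 3 ≤ Y.card) (hc : ¬ Disc Y E)
    (hcut : ∀ z ∈ Y, ¬ Disc (Y.erase z) E) {z w : V} (hzY : z ∈ Y) (hwY : w ∈ Y) :
    Cov E {z, w} := by
  classical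
  by_cases hzw : z = w
  · subst hzw
    rw [pair_eq_singleton]
    exact cov_vertexY hE hYE h3 hc hcut hzY
  by_cases hn : s(z, w) ∈ E
  · have hadj : (SimpleGraph.fromEdgeSet (E : Set (Sym2 V))).Adj z w := by
      rw [SimpleGraph.fromEdgeSet_adj]
      exact ⟨by exact_mod_cast hn, hzw⟩
    refine exch hE (A := ∅) (cov_vertexY hE hYE h3 hc hcut hzY) (cov_vertexY hE hYE h3 hc hcut hwY)
      (SimpleGraph.Walk.cons hadj SimpleGraph.Walk.nil) ?_ ?_
    · simp [hzw]
    · intro r hr h1 h2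
      simp only [SimpleGraph.Walk.support_cons, SimpleGraph.Walk.support_nil, List.mem_cons,
        List.not_mem_nil, or_false] at hr
      rcases hr with hr | hr
      · exact absurd hr h1
      · exact absurd hr h2
  set G := SimpleGraph.fromEdgeSet (E : Set (Sym2 V)) with hG
  have hadj : ∀ a b, G.Adj a b ↔ s(a, b) ∈ E ∧ a ≠ b := by
    intro a b
    rw [hG, SimpleGraph.fromEdgeSet_adj]
    exact and_congr (by exact_mod_cast Iff.rfl) Iff.rfl
  obtain ⟨S, hS'⟩ : ∃ S : Finset V, ∀ x, x ∈ S ↔ x ∈ Y ∧ x ≠ z ∧ x ≠ w :=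
    ⟨Y.filter fun x => x ≠ z ∧ x ≠ w, fun x => by simp⟩
  have hS : ∀ x, x ∈ S → x ≠ z ∧ x ≠ w := fun x hx => ((hS' x).1 hx).2
  obtain ⟨A, hA⟩ : ∃ A : Finset V, ∀ x, x ∈ A ↔ x ∈ S ∧ s(z, x) ∈ E :=
    ⟨S.filter fun x => s(z, x) ∈ E, fun x => by simp⟩
  obtain ⟨B, hB⟩ : ∃ B : Finset V, ∀ x, x ∈ B ↔ x ∈ S ∧ s(w, x) ∈ E :=
    ⟨S.filter fun x => s(w, x) ∈ E, fun x => by simp⟩
  obtain ⟨C, D, hCS, hDS, hC, hD, ⟨a, haC, haA⟩, ⟨b, hbC, hbB⟩, ⟨c, hcD, hcA⟩, ⟨d, hdD, hdB⟩, hCD⟩ :=
    two_link G S A B (fun x hx => ((hA x).1 hx).1) (fun x hx => ((hB x).1 hx).1) (by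
      intro Z U hZ hU hAU hUB hcl
      by_contra hlt
      have hdisc : Disc (Y \ Z) E := by
        refine disc_of_sepY hzY hwY hzw hn (fun h => (hS z (hZ h)).1 rfl) (fun h => (hS w (hZ h)).2 rfl)
          (U := U) (fun x hx => ⟨((hS' x).1 (hU x hx).1).1, (hS x (hU x hx).1).1, (hS x (hU x hx).1).2,
            (hU x hx).2⟩) ?_ ?_ ?_
        · intro x hxY hx h1 h2 h4
          exact hAU x ((hA x).2 ⟨(hS' x).2 ⟨hxY, h1, h2⟩, hx⟩) h4
        · intro x hx h1
          exact hUB x hx ((hB x).2 ⟨(hU x hx).1, h1⟩)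
        · intro x hx y hyY h1 h2 h4 h5 h6
          refine hcl x hx y ((hS' y).2 ⟨hyY, h1, h2⟩) h4 h5 ((hadj x y).2 ⟨h6, ?_⟩)
          rintro rfl
          exact h5 hx
      have hcard : Z.card = 0 ∨ Z.card = 1 := by omega
      rcases hcard with h0 | h1
      · rw [card_eq_zero] at h0
        subst h0
        rw [sdiff_empty] at hdisc
        exact hc hdisc
      · obtain ⟨v, rfl⟩ := card_eq_one.1 h1
        rw [sdiff_singleton_eq_erase] at hdisc
        exact hcut v ((hS' v).1 (hZ (mem_singleton_self v))).1 hdisc)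
  obtain ⟨p, hp, hpC⟩ := path_of_not_disc (not_disc_of_conn hC) haC hbC
  obtain ⟨q, hq, hqD⟩ := path_of_not_disc (not_disc_of_conn hD) hdD hcD
  have haz : a ≠ z := (hS a ((hA a).1 haA).1).1
  have hcz : c ≠ z := (hS c ((hA c).1 hcA).1).1
  have hbw : G.Adj b w := (hadj b w).2 ⟨by rw [Sym2.eq_swap]; exact ((hB b).1 hbB).2,
    (hS b ((hB b).1 hbB).1).2⟩
  have hwd : G.Adj w d := (hadj w d).2 ⟨((hB d).1 hdB).2, Ne.symm (hS d ((hB d).1 hdB).1).2⟩
  have hac : a ≠ c := by
    rintro rfl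
    exact hCD a haC hcD
  set r := p.append (SimpleGraph.Walk.cons hbw (SimpleGraph.Walk.cons hwd q)) with hr
  have hsup : r.support = p.support ++ (w :: q.support) := by
    rw [hr, SimpleGraph.Walk.support_append]
    simp
  have hrp : r.IsPath := by
    rw [SimpleGraph.Walk.isPath_def, hsup]
    refine List.Nodup.append (by rw [← SimpleGraph.Walk.isPath_def]; exact hp) ?_ ?_
    · rw [List.nodup_cons]
      exact ⟨fun h => (hS w (hDS (hqD w h))).2 rfl, by rw [← SimpleGraph.Walk.isPath_def]; exact hq⟩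
    · intro x hx hx'
      rcases List.mem_cons.1 hx' with rfl | hx'
      · exact (hS x (hCS (hpC x hx))).2 rfl
      · exact hCD x (hpC x hx) (hqD x hx')
  have hrz : ∀ x ∈ r.support, x ≠ z := by
    intro x hx
    rw [hsup, List.mem_append, List.mem_cons] at hx
    rcases hx with hx | rfl | hx
    · exact (hS x (hCS (hpC x hx))).1
    · exact Ne.symm hzw
    · exact (hS x (hDS (hqD x hx))).1
  have hza := ((hA a).1 haA).2
  have hzc := ((hA c).1 hcA).2
  have hn1 : s(z, c) ∉ (∅ : Finset (Sym2 V)) := notMem_empty _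
  have hn2 : s(z, a) ∉ insert s(z, c) (∅ : Finset (Sym2 V)) := by
    intro h
    rcases mem_insert.1 h with h | h
    · rw [Sym2.eq_iff] at h
      rcases h with h | h
      · exact hac h.2
      · exact hcz h.1.symm
    · exact notMem_empty _ h
  have key : ∀ x, dg (insert s(z, a) (insert s(z, c) (∅ : Finset (Sym2 V)))) x =
      (if x = z ∨ x = c then 1 else 0) + if x = z ∨ x = a then 1 else 0 := by
    intro x
    rw [dg_insert hn2, dg_insert hn1]
    simp [dg]
  obtain ⟨F', h1, h2, h4, h5⟩ := addPath' r hrp (insert s(z, a) (insert s(z, c) ∅))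
    (insert_subset hza (insert_subset hzc (empty_subset _))) hac
    (by
      intro h
      rcases mem_insert.1 h with h | h
      · rw [Sym2.eq_iff] at h
        rcases h with h | h
        · exact haz h.1
        · exact hcz h.2
      · rcases mem_insert.1 h with h | h
        · rw [Sym2.eq_iff] at h
          rcases h with h | h
          · exact haz h.1
          · exact hac h.1
        · exact notMem_empty _ h)
    (by rw [key]; simp [haz, hac])
    (by rw [key]; simp [hcz, Ne.symm hac])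
    (by
      intro x hx1 hx2
      rw [key]
      by_cases hx : x = z
      · subst hx; simp
      · simp [hx, hx1, hx2])
    (by
      intro x hx hx1 hx2
      rw [key]
      simp [hrz x hx, hx1, hx2])
  refine ⟨F', h1, h2, fun x hx => ?_⟩
  rcases mem_insert.1 hx with rfl | hx
  · exact h5 x (by rw [key]; simp)
  · rw [mem_singleton.1 hx]
    exact h4 w (by rw [hsup]; simp)

/-- (S3) in the form of `LD.TCY`. -/
theorem cov_two {V : Type} [DecidableEq V] {E : Finset (Sym2 V)} {Y : Finset V} (hT : LD.TCY E Y)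
    {a b : V} (ha : a ∈ Y) (hb : b ∈ Y) : Cov E {a, b} :=
  cov_pairY hT.loop hT.sub hT.three hT.conn hT.conn' ha hb

end H36R
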