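import Pool.Agent.Lib.H36R.L2U
import Pool.Agent.Lib.LD59.S8
import Pool.Agent.Lib.LD77.B
import Pool.Agent.Lib.H33FD.Side
import Pool.Agent.Lib.H98TF.FunD

/-!
# H36R, file FD: form D from the facts (S7)
-/

set_option autoImplicit false

namespace H36R

open Finset H98P H98Z H98M H63F H30F H85TF LD H98TF

/-- The facts from (S7). -/
theorem facts_of {V : Type} [Fintype V] [DecidableEq V]
    (s7u : ∀ (E : Finset (Sym2 V)) (Y : Finset V) (x y : V) (P Q W : Finset V), TCY E Y → Unc E Y x y →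
      Sep E Y x y P Q → W ⊆ Y \ Q → U E Y W → U (red E Y x y Q) (Y \ Q) W)
    (s7x : ∀ (E : Finset (Sym2 V)) (Y : Finset V) (x y : V) (P Q W : Finset V), TCY E Y → Unc E Y x y →
      Sep E Y x y P Q → W ⊆ Y \ Q → (X2 E Y W ↔ X2 (red E Y x y Q) (Y \ Q) W)) : Facts V where
  s1 _ _ _ _ _ _ h hs := LD77.tcy_red h hs
  s4 _ _ _ h h2 := LD77.u_two h h2
  s7u := s7u
  s7x := s7x
  s8 _ _ h hs hd := LD59.exists_unc h hs hd
  s9 _ _ _ h h2 := LD77.u_cycle h h2
  xadd _ _ _ _ _ _ _ _ hT hu hs hW hX hB := H33FD.x2_add hT hu hs (by rw [← sep_sub hs]; exact hW) hX hB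

/-- FORM D, abstract, from the facts. -/
theorem formD_of {V : Type} [Fintype V] [DecidableEq V] (hf : Facts V) {cross : Sym2 V → Sym2 V → Prop}
    (hsymm : ∀ e f, cross e f → cross f e) (hHD : ∀ W, HD cross W) (h3 : 3 ≤ Fintype.card V) :
    ∃ G : Finset (Sym2 V), G ⊆ LW univ ∧ Plane cross G ∧ TC G ∧ 2 * Fintype.card V ≤ G.card + 3 ∧
      Cov G univ ∧ (NoCut2 G ∨ Ham G) :=
  formD hsymm hHD h3 (fun _ _ hT M hM hU => l2u_full hf hT (subset_univ M) hM hU)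
    (fun _ _ hT hs h2 => l1u hf hT hs h2)

end H36R
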