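import Pool.Agent.Lib.H36R.L2U4
import Pool.Agent.Lib.H77D4.C
import Pool.Agent.Lib.H56LD.S74
import Pool.Agent.Lib.H96LD.S6
import Pool.Agent.Lib.H30D.X7
import Pool.Agent.Lib.LD59.S8
import Pool.Agent.Lib.LD77.B

/-!
# H36R, file FD4: the facts for `U4` and the two links of form D with cycles of length at least 4
-/

set_option autoImplicit false

namespace H36R

open Finset H98P H98Z H98M H63F H30F H85TF LD H75U H77D4

/-- (S4) for `U4`. -/
theorem u4_two {V : Type} [Fintype V] [DecidableEq V] {E : Finset (Sym2 V)} {Y W : Finset V}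
    (h : TCY E Y) (h2 : (W ∩ Y).card ≤ 2) : ¬ U4 E Y W :=
  u4_two_of (fun _ _ _ _ hT h4 ha hb => H97C.cov4_two hT h4 ha hb) h h2

/-- All facts. -/
theorem facts4 (V : Type) [Fintype V] [DecidableEq V] : Facts4 V where
  s1 _ _ _ _ _ _ h hs := LD77.tcy_red h hs
  s4 _ _ _ h h2 := u4_two h h2
  s7u _ _ _ _ _ _ _ hT hu hs hW hU :=
    H56LD.u4_side (fun h hs => LD77.tcy_red h hs) (fun h hs hc => cov4_red' h hs hc)
      (fun h hs h3 => cov4_three h hs h3) (fun h h2 => u4_two h h2)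
      (fun h hs h' hx hy hne => H96LD.side h hs h' hx hy hne) hU hT hs hu
      (disjoint_left.2 fun _ ha => (mem_sdiff.1 (hW ha)).2)
  s7x _ _ _ _ _ _ _ hT hu hs hW := H30D.x2_side' hT hu hs hW
  s8 _ _ h hs hd := LD59.exists_unc h hs hd
  s9 _ _ _ h h2 := u4_cycle h h2
  xadd _ _ _ _ _ _ _ _ hT hu hs hW hX hB := H30D.x2_add' hT hu hs hW hB hX

/-- The facts, `U`-free part, for (L1U). -/
theorem l1_closed {V : Type} [Fintype V] [DecidableEq V] {E : Finset (Sym2 V)} (hT : TCY E univ)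
    (hsep : ∃ x y P Q, Sep E univ x y P Q) (h2 : ¬ (∀ v, dg E v = 2)) :
    AC (Ch fun W : Finset V => X2 E univ W) := by
  obtain ⟨x, y, P, Q, hs, hu⟩ := LD59.exists_unc hT hsep (fun h => h2 fun v => h v (mem_univ v))
  have hYQ : P ∪ {x, y} = univ \ Q := by
    rw [sep_sub hs]
    ext v
    simp only [mem_union, mem_insert, mem_singleton]
    tauto
  have hYP : Q ∪ {x, y} = univ \ P := by
    rw [sep_sub hs.symm]
    ext v
    simp only [mem_union, mem_insert, mem_singleton]
    tauto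
  have h1 : AC (Ch fun W : Finset V => X2 E univ W ∧ W ⊂ univ) := by
    refine H30D.step_i (P := fun W => X2 E univ W) (M := univ) (Cc := P) (Dd := Q)
      (Z := {x, y}) hs.dis ?_ ?_ ?_ ?_ ?_ ?_ ?_ ?_ ?_ ?_ ?_ ?_
    · rw [disjoint_left]
      intro a ha hb
      simp only [mem_insert, mem_singleton] at hb
      rcases hb with rfl | rfl
      · exact hs.xP ha
      · exact hs.yP ha
    · rw [disjoint_left]
      intro a ha hb
      simp only [mem_insert, mem_singleton] at hb
      rcases hb with rfl | rfl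
      · exact hs.xQ ha
      · exact hs.yQ ha
    · intro a ha
      have h1 := (sep_mem hs a).1 ha
      simp only [mem_union, mem_insert, mem_singleton]
      tauto
    · obtain ⟨a, ha⟩ := hs.P0
      exact ⟨a, mem_inter.2 ⟨mem_univ _, ha⟩⟩
    · obtain ⟨a, ha⟩ := hs.Q0
      exact ⟨a, mem_inter.2 ⟨mem_univ _, ha⟩⟩
    · exact ⟨x, by simp⟩
    · intro W _ hWZ hWP hWQ
      rw [disjoint_left] at hWZ
      refine ⟨x, y, P, Q, hs, fun h => hWZ h (by simp), fun h => hWZ h (by simp), ?_, ?_⟩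
      · obtain ⟨a, ha⟩ := hWP
        exact ⟨a, (mem_inter.1 ha).1, (mem_inter.1 ha).2⟩
      · obtain ⟨a, ha⟩ := hWQ
        exact ⟨a, (mem_inter.1 ha).1, (mem_inter.1 ha).2⟩
    · exact fun W hW h1 => unc_pair hu hW h1
    · intro W _ hW h1 B hB
      exact H30D.x2_add' hT hu hs (by rw [← hYQ]; exact hW) (hB.trans inter_subset_right) h1
    · intro W _ hW h1 B hB
      exact H30D.x2_add' hT hu hs.symm (by rw [← hYP]; exact hW) (hB.trans inter_subset_right) h1
    · intro hP
      rw [hYQ, univ_inter] at hP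
      exact absurd (x2_disc (LD77.tcy_red hT hs).sub
        ((H30D.x2_side' hT hu hs Subset.rfl).1 hP)) (LD77.tcy_red hT hs).conn
    · intro hP
      rw [hYP, univ_inter] at hP
      exact absurd (x2_disc (LD77.tcy_red hT hs.symm).sub
        ((H30D.x2_side' hT hu hs.symm Subset.rfl).1 hP)) (LD77.tcy_red hT hs.symm).conn
  refine ac_congr (fun c => ?_) h1
  have e : (fun W : Finset V => X2 E univ W ∧ W ⊂ univ) = fun W : Finset V => X2 E univ W := by
    funext W
    refine propext ⟨fun h => h.1, fun h => ⟨h, ?_⟩⟩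
    obtain ⟨x, y, P, Q, -, hx, -⟩ := h
    exact ⟨subset_univ _, fun h => hx (h (mem_univ x))⟩
  rw [e]

/-- (L2) of form D4, closed. -/
theorem L2_4 {V : Type} [Fintype V] [DecidableEq V] (E : Finset (Sym2 V)) (_hE : E ⊆ LW univ)
    (hT : TCY E univ) (M : Finset V) (hM : ¬ Disc M E) (hU : U4 E univ M) :
    AC (Ch fun W : Finset V => (U4 E univ W ∨ X2 E univ W) ∧ W ⊂ M) :=
  l2u_full4 (facts4 V) hT (subset_univ M) hM hU

/-- (L1) of form D4, closed. -/
theorem L1_4 {V : Type} [Fintype V] [DecidableEq V] (E : Finset (Sym2 V)) (_hE : E ⊆ LW univ)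
    (hT : TCY E univ) (hsep : ∃ x y P Q, Sep E univ x y P Q) (h2 : ¬ (∀ v, dg E v = 2)) :
    AC (Ch fun W : Finset V => X2 E univ W) :=
  l1_closed hT hsep h2

end H36R
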