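import Pool.Agent.Lib.H30F.SD

/-!
# H36R, file GL: adding and deleting one element of a finite partial order
-/

set_option autoImplicit false

namespace H36R

open Finset H98P H63F H30F

/-- MAYER-VIETORIS, second form. -/
theorem ac_left {E : Type*} [Fintype E] [DecidableEq E] {K1 K2 : Finset E → Prop} (h1 : Dn K1) (h2 : Dn K2)
    (a : AC fun s => K1 s ∨ K2 s) (a12 : AC fun s => K1 s ∧ K2 s) : AC K1 := by
  classical
  intro z hz hbd
  obtain ⟨c, hc, hd⟩ := a z (fun s hs => Or.inl (hz s hs)) hbd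
  obtain ⟨c1, hc1⟩ : ∃ c1 : Finset E → ZMod 2, ∀ s, c1 s = if K1 s then c s else 0 := ⟨_, fun _ => rfl⟩
  obtain ⟨c2, hc2⟩ : ∃ c2 : Finset E → ZMod 2, ∀ s, c2 s = if K1 s then 0 else c s := ⟨_, fun _ => rfl⟩
  have hsum : ∀ s, c1 s + c2 s = c s := by
    intro s
    rw [hc1, hc2]
    split_ifs <;> simp
  have hs1 : ∀ s, c1 s ≠ 0 → K1 s := by
    intro s hs
    rw [hc1] at hs
    by_contra hc
    rw [if_neg hc] at hs
    exact hs rfl
  have hs2 : ∀ s, c2 s ≠ 0 → K2 s := by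
    intro s hs
    rw [hc2] at hs
    by_cases h0 : K1 s
    · rw [if_pos h0] at hs
      exact absurd rfl hs
    · rw [if_neg h0] at hs
      rcases hc s hs with h | h
      · exact absurd h h0
      · exact h
  have hw : ∀ (c : Finset E → ZMod 2) (K : Finset E → Prop), Dn K → (∀ s, c s ≠ 0 → K s) →
      ∀ r, bd c r ≠ 0 → K r := by
    intro c K hK hc r hr
    by_contra hcon
    apply hr
    unfold bd
    refine sum_eq_zero fun e _ => ?_
    by_contra h0
    exact hcon (hK r (insert e r) (subset_insert _ _) (hc _ h0))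
  have hb : ∀ r, bd c1 r + bd c2 r = z r := by
    intro r
    rw [← bd_add, ← hd r]
    have : (fun σ => c1 σ + c2 σ) = c := funext hsum
    rw [this]
  have h22 : ∀ x : ZMod 2, x + x = 0 := CharTwo.add_self_eq_zero
  have hb2 : ∀ r, bd c2 r ≠ 0 → K1 r := by
    intro r hr
    by_cases h0 : z r = 0
    · refine hw c1 K1 h1 hs1 r ?_
      have h3 := hb r
      rw [h0] at h3
      have h4 : bd c1 r = bd c2 r := CharTwo.add_eq_zero.1 h3
      rwa [h4]
    · exact hz r h0
  obtain ⟨u, hu1, hu2⟩ := a12 (bd c2) (fun s hs => ⟨hb2 s hs, hw c2 K2 h2 hs2 s hs⟩) (fun r => bd_bd c2 r)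
  refine ⟨fun s => c1 s + u s, ?_, ?_⟩
  · intro s hs
    by_cases h : c1 s = 0
    · exact (hu1 s (by simpa [h] using hs)).1
    · exact hs1 s h
  · intro r
    rw [bd_add, hu2 r, hb r]

section gl

variable {α : Type*} [PartialOrder α] [Fintype α] [DecidableEq α]

theorem gl_iff {P : α → Prop} {t : α} {c : Finset α} :
    (Ch (fun x => P x ∧ x ≠ t) c ∧ Ch (fun x => P x ∧ (x ≤ t ∨ t ≤ x)) c) ↔
      Ch (fun x => P x ∧ x ≠ t ∧ (x ≤ t ∨ t ≤ x)) c :=
  ⟨fun h => ⟨fun x hx => ⟨(h.1.1 x hx).1, (h.1.1 x hx).2, (h.2.1 x hx).2⟩, h.1.2⟩,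
    fun h => ⟨⟨fun x hx => ⟨(h.1 x hx).1, (h.1 x hx).2.1⟩, h.2⟩,
      ⟨fun x hx => ⟨(h.1 x hx).1, (h.1 x hx).2.2⟩, h.2⟩⟩⟩

theorem gl_or {P : α → Prop} {t : α} {c : Finset α} :
    (Ch (fun x => P x ∧ x ≠ t) c ∨ Ch (fun x => P x ∧ (x ≤ t ∨ t ≤ x)) c) ↔ Ch P c := by
  constructor
  · rintro (h | h)
    · exact ⟨fun x hx => (h.1 x hx).1, h.2⟩
    · exact ⟨fun x hx => (h.1 x hx).1, h.2⟩
  · intro h
    by_cases ht : t ∈ c
    · exact Or.inr ⟨fun x hx => ⟨h.1 x hx, h.2 x hx t ht⟩, h.2⟩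
    · exact Or.inl ⟨fun x hx => ⟨h.1 x hx, fun e => ht (e ▸ hx)⟩, h.2⟩

/-- adding one element -/
theorem gl_add {P : α → Prop} {t : α} (ht : P t) (h1 : AC (Ch fun x => P x ∧ x ≠ t))
    (h2 : AC (Ch fun x => P x ∧ x ≠ t ∧ (x ≤ t ∨ t ≤ x))) : AC (Ch P) :=
  ac_congr (fun _ => gl_or) (ac_union ch_dn ch_dn h1
    (ac_ch_cone (a := t) ⟨ht, Or.inl le_rfl⟩ fun x hx => hx.2.symm)
    (ac_congr (fun _ => gl_iff.symm) h2))

/-- deleting one element -/
theorem gl_del {P : α → Prop} {t : α} (h1 : AC (Ch P))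
    (h2 : AC (Ch fun x => P x ∧ x ≠ t ∧ (x ≤ t ∨ t ≤ x))) : AC (Ch fun x => P x ∧ x ≠ t) :=
  ac_left ch_dn (K2 := Ch (fun x => P x ∧ (x ≤ t ∨ t ≤ x))) ch_dn (ac_congr (fun _ => gl_or.symm) h1)
    (ac_congr (fun _ => gl_iff.symm) h2)

/-- a join with an acyclic lower part -/
theorem gl_joinU {L : α → Prop} (hL : AC (Ch L)) (n : ℕ) : ∀ (U : Finset α), U.card = n →
    (∀ x, L x → ∀ u ∈ U, x < u) → AC (Ch fun x => L x ∨ x ∈ U) := by
  classical
  induction n using Nat.strong_induction_on with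
  | _ n ih =>
    intro U hU h
    rcases U.eq_empty_or_nonempty with rfl | hne
    · exact ac_congr (fun c => by simp) hL
    · obtain ⟨m, hm, hmax⟩ := U.exists_maximal hne
      have hmL : ¬ L m := fun hc => lt_irrefl m (h m hc m hm)
      have hc1 : (U.erase m).card < n := by
        rw [← hU]
        exact card_erase_lt_of_mem hm
      have hc2 : (U.filter fun x => x < m).card < n := by
        rw [← hU]
        refine card_lt_card ⟨filter_subset _ _, fun hh => ?_⟩
        exact lt_irrefl m (mem_filter.1 (hh hm)).2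
      refine gl_add (t := m) (Or.inr hm) ?_ ?_
      · refine ac_congr (fun c => ?_) (ih _ hc1 (U.erase m) rfl fun x hx u hu => h x hx u (mem_of_mem_erase hu))
        have e : (fun x => L x ∨ x ∈ U.erase m) = fun x => (L x ∨ x ∈ U) ∧ x ≠ m := by
          funext x
          refine propext ⟨?_, ?_⟩
          · rintro (hx | hx)
            · exact ⟨Or.inl hx, fun e => hmL (e ▸ hx)⟩
            · exact ⟨Or.inr (mem_of_mem_erase hx), (mem_erase.1 hx).1⟩
          · rintro ⟨hx | hx, hxm⟩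
            · exact Or.inl hx
            · exact Or.inr (mem_erase.2 ⟨hxm, hx⟩)
        rw [e]
      · refine ac_congr (fun c => ?_) (ih _ hc2 (U.filter fun x => x < m) rfl
          fun x hx u hu => h x hx u (mem_filter.1 hu).1)
        have e : (fun x => L x ∨ x ∈ U.filter fun x => x < m) =
            fun x => (L x ∨ x ∈ U) ∧ x ≠ m ∧ (x ≤ m ∨ m ≤ x) := by
          funext x
          refine propext ⟨?_, ?_⟩
          · rintro (hx | hx)
            · exact ⟨Or.inl hx, (h x hx m hm).ne, Or.inl (h x hx m hm).le⟩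
            · have h2 := mem_filter.1 hx
              exact ⟨Or.inr h2.1, h2.2.ne, Or.inl h2.2.le⟩
          · rintro ⟨hx | hx, hxm, hc⟩
            · exact Or.inl hx
            · refine Or.inr (mem_filter.2 ⟨hx, ?_⟩)
              rcases hc with hc | hc
              · exact lt_of_le_of_ne hc hxm
              · exact absurd (le_antisymm (hmax hx hc) hc) hxm
        rw [e]

theorem gl_join {P : α → Prop} {t : α} (h : AC (Ch fun x => P x ∧ x < t)) :
    AC (Ch fun x => P x ∧ x ≠ t ∧ (x ≤ t ∨ t ≤ x)) := by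
  classical
  have h1 := gl_joinU h _ (univ.filter fun x => P x ∧ t < x) rfl
    (fun x hx u hu => hx.2.trans (mem_filter.1 hu).2.2)
  refine ac_congr (fun c => ?_) h1
  have e : (fun x => (P x ∧ x < t) ∨ x ∈ univ.filter fun x => P x ∧ t < x) =
      fun x => P x ∧ x ≠ t ∧ (x ≤ t ∨ t ≤ x) := by
    funext x
    refine propext ⟨?_, ?_⟩
    · rintro (⟨hx, h2⟩ | hx)
      · exact ⟨hx, h2.ne, Or.inl h2.le⟩
      · have h2 := (mem_filter.1 hx).2
        exact ⟨h2.1, h2.2.ne', Or.inr h2.2.le⟩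
    · rintro ⟨hx, hxm, hc | hc⟩
      · exact Or.inl ⟨hx, lt_of_le_of_ne hc hxm⟩
      · exact Or.inr (mem_filter.2 ⟨mem_univ _, hx, lt_of_le_of_ne hc (Ne.symm hxm)⟩)
  rw [e]

/-- Removal of all elements with `C` from the largest down. -/
theorem gl_remove {Y C : α → Prop} (h : AC (Ch Y)) (hC : ∀ t, Y t → C t → AC (Ch fun x => Y x ∧ x < t)) :
    AC (Ch fun x => Y x ∧ ¬ C x) := by
  classical
  have key : ∀ (n : ℕ) (D : Finset α), D.card = n → (∀ x ∈ D, Y x ∧ C x) →
      (∀ x ∈ D, ∀ y, Y y → C y → x ≤ y → y ∈ D) → AC (Ch fun x => Y x ∧ x ∉ D) := by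
    intro n
    induction n with
    | zero =>
      intro D hD _ _
      rw [card_eq_zero] at hD
      subst hD
      exact ac_congr (fun c => by simp) h
    | succ n ih =>
      intro D hD hDC hup
      have hne : D.Nonempty := by
        rw [← card_pos]
        omega
      obtain ⟨t, ht, hmin⟩ := D.exists_minimal hne
      have hcard : (D.erase t).card = n := by
        rw [card_erase_of_mem ht]
        omega
      have h1 := ih (D.erase t) hcard (fun x hx => hDC x (mem_of_mem_erase hx)) (by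
        intro x hx y hy hyC hxy
        refine mem_erase.2 ⟨?_, hup x (mem_of_mem_erase hx) y hy hyC hxy⟩
        rintro rfl
        exact (mem_erase.1 hx).1 (le_antisymm hxy (hmin (mem_of_mem_erase hx) hxy)))
      have h2 : AC (Ch fun x => (Y x ∧ x ∉ D.erase t) ∧ x < t) := by
        refine ac_congr (fun c => ?_) (hC t (hDC t ht).1 (hDC t ht).2)
        have e : (fun x => Y x ∧ x < t) = fun x => (Y x ∧ x ∉ D.erase t) ∧ x < t := by
          funext x
          refine propext ⟨?_, ?_⟩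
          · rintro ⟨hx, hxt⟩
            exact ⟨⟨hx, fun hc => absurd (hmin (mem_of_mem_erase hc) hxt.le) (not_le_of_gt hxt)⟩, hxt⟩
          · rintro ⟨⟨hx, _⟩, hxt⟩
            exact ⟨hx, hxt⟩
        rw [e]
      have h3 := gl_del h1 (gl_join h2)
      refine ac_congr (fun c => ?_) h3
      have e : (fun x => (Y x ∧ x ∉ D.erase t) ∧ x ≠ t) = fun x => Y x ∧ x ∉ D := by
        funext x
        refine propext ⟨?_, ?_⟩
        · rintro ⟨⟨hx, h4⟩, h5⟩
          exact ⟨hx, fun hc => h4 (mem_erase.2 ⟨h5, hc⟩)⟩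
        · rintro ⟨hx, h4⟩
          exact ⟨⟨hx, fun hc => h4 (mem_of_mem_erase hc)⟩, fun e => h4 (e ▸ ht)⟩
      rw [e]
  have h1 := key _ (univ.filter fun x => Y x ∧ C x) rfl (fun x hx => (mem_filter.1 hx).2)
    (fun x _ y hy hyC _ => mem_filter.2 ⟨mem_univ _, hy, hyC⟩)
  refine ac_congr (fun c => ?_) h1
  have e : (fun x => Y x ∧ x ∉ univ.filter fun x => Y x ∧ C x) = fun x => Y x ∧ ¬ C x := by
    funext x
    refine propext ⟨?_, ?_⟩
    · rintro ⟨hx, h2⟩
      exact ⟨hx, fun hc => h2 (mem_filter.2 ⟨mem_univ _, hx, hc⟩)⟩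
    · rintro ⟨hx, h2⟩
      exact ⟨hx, fun hc => h2 (mem_filter.1 hc).2.2⟩
  rw [e]

end gl

end H36R
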