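import Pool.Agent.Lib.H36R.CY
import Pool.Agent.Lib.H30D.S

/-!
# H36R, file L2U: the lower links of the connected members of the family `U` or `X2` are acyclic (route alpha of form D)

The facts (S1), (S4), (S7), (S8), (S9) and the addition of vertices on the other side are the fields of `Facts`.
-/

set_option autoImplicit false

namespace H36R

open Finset H98P H63F H98M H30F H85TF LD

/-- The facts of the plan. -/
structure Facts (V : Type) [DecidableEq V] : Prop where
  s1 : ∀ (E : Finset (Sym2 V)) (Y : Finset V) (x y : V) (P Q : Finset V), TCY E Y → Sep E Y x y P Q →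
    TCY (red E Y x y Q) (Y \ Q)
  s4 : ∀ (E : Finset (Sym2 V)) (Y W : Finset V), TCY E Y → (W ∩ Y).card ≤ 2 → ¬ U E Y W
  s7u : ∀ (E : Finset (Sym2 V)) (Y : Finset V) (x y : V) (P Q W : Finset V), TCY E Y → Unc E Y x y →
    Sep E Y x y P Q → W ⊆ Y \ Q → U E Y W → U (red E Y x y Q) (Y \ Q) W
  s7x : ∀ (E : Finset (Sym2 V)) (Y : Finset V) (x y : V) (P Q W : Finset V), TCY E Y → Unc E Y x y →
    Sep E Y x y P Q → W ⊆ Y \ Q → (X2 E Y W ↔ X2 (red E Y x y Q) (Y \ Q) W)
  s8 : ∀ (E : Finset (Sym2 V)) (Y : Finset V), TCY E Y → (∃ x y P Q, Sep E Y x y P Q) →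
    ¬ (∀ v ∈ Y, dg E v = 2) → ∃ x y P Q, Sep E Y x y P Q ∧ Unc E Y x y
  s9 : ∀ (E : Finset (Sym2 V)) (Y W : Finset V), TCY E Y → (∀ v ∈ Y, dg E v = 2) → ¬ U E Y W
  xadd : ∀ (E : Finset (Sym2 V)) (Y : Finset V) (x y : V) (P Q W B : Finset V), TCY E Y → Unc E Y x y →
    Sep E Y x y P Q → W ⊆ Y \ Q → X2 E Y W → B ⊆ Q → X2 E Y (W ∪ B)

section lu

variable {V : Type} [DecidableEq V]

theorem sep_mem {E : Finset (Sym2 V)} {Y : Finset V} {x y : V} {P Q : Finset V}
    (h : Sep E Y x y P Q) (v : V) : v ∈ Y ↔ v = x ∨ v = y ∨ v ∈ P ∨ v ∈ Q := by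
  rw [← h.eq]
  simp only [mem_insert, mem_union]

theorem sep_sub {E : Finset (Sym2 V)} {Y : Finset V} {x y : V} {P Q : Finset V}
    (h : Sep E Y x y P Q) : Y \ Q = insert x (insert y P) := by
  ext v
  rw [mem_sdiff, sep_mem h]
  simp only [mem_insert]
  constructor
  · rintro ⟨h1 | h1 | h1 | h1, h2⟩
    · exact Or.inl h1
    · exact Or.inr (Or.inl h1)
    · exact Or.inr (Or.inr h1)
    · exact absurd h1 h2
  · rintro (rfl | rfl | h1)
    · exact ⟨Or.inl rfl, h.xQ⟩
    · exact ⟨Or.inr (Or.inl rfl), h.yQ⟩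
    · exact ⟨Or.inr (Or.inr (Or.inl h1)), disjoint_left.1 h.dis h1⟩

theorem sep_card {E : Finset (Sym2 V)} {Y : Finset V} {x y : V} {P Q : Finset V}
    (h : Sep E Y x y P Q) : (Y \ Q).card < Y.card := by
  obtain ⟨q, hq⟩ := h.Q0
  refine card_lt_card ⟨sdiff_subset, fun h1 => ?_⟩
  exact (mem_sdiff.1 (h1 ((sep_mem h q).2 (Or.inr (Or.inr (Or.inr hq)))))).2 hq

/-- An `X2`-set is disconnected. -/
theorem x2_disc {E : Finset (Sym2 V)} {Y W : Finset V} (hE : ∀ e ∈ E, ∀ v ∈ e, v ∈ Y) (h : X2 E Y W) :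
    Disc W E := by
  obtain ⟨x, y, P, Q, hs, hx, hy, ⟨a, haW, haP⟩, b, hbW, hbQ⟩ := h
  refine ⟨W ∩ P, W \ P, ⟨a, mem_inter.2 ⟨haW, haP⟩⟩, ⟨b, mem_sdiff.2 ⟨hbW, fun h => disjoint_left.1 hs.dis h hbQ⟩⟩,
    ?_, ?_, ?_⟩
  · rw [disjoint_left]
    intro c hc hc'
    exact (mem_sdiff.1 hc').2 (mem_inter.1 hc).2
  · rw [union_comm]
    exact sdiff_union_inter W P
  · intro c hc d hd hcd
    obtain ⟨hdW, hdP⟩ := mem_sdiff.1 hd
    have hdY : d ∈ Y := hE _ hcd d (by simp)
    rcases (sep_mem hs d).1 hdY with rfl | rfl | h1 | h1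
    · exact hx hdW
    · exact hy hdW
    · exact hdP h1
    · exact hs.noE c (mem_inter.1 hc).2 d h1 hcd

/-- A connected set inside `Y \ Q` stays connected. -/
theorem red_conn {E : Finset (Sym2 V)} {Y : Finset V} {x y : V} {Q M : Finset V} (hM : M ⊆ Y \ Q)
    (h : ¬ Disc M E) : ¬ Disc M (red E Y x y Q) := by
  rintro ⟨C, D, hC, hD, hCD, hW, hn⟩
  refine h ⟨C, D, hC, hD, hCD, hW, fun a ha b hb hab => hn a ha b hb ?_⟩
  unfold red
  refine mem_insert_of_mem (mem_inter.2 ⟨hab, ?_⟩)
  rw [mk_mem_sym2_iff]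
  exact ⟨hM (hW ▸ mem_union_left _ ha), hM (hW ▸ mem_union_right _ hb)⟩

/-- A connected set which meets both sides: its part in `Y \ Q` is connected in the reduction. -/
theorem red_conn' {E : Finset (Sym2 V)} {Y : Finset V} {x y : V} {P Q M : Finset V}
    (hs : Sep E Y x y P Q) (hMY : M ⊆ Y) (h : ¬ Disc M E) (hQ : (M ∩ Q).Nonempty)
    (hz : x ∈ M ∨ y ∈ M) : ¬ Disc (M ∩ (Y \ Q)) (red E Y x y Q) := by
  rintro ⟨C, D, hC, hD, hCD, hW, hn⟩
  -- one side contains no `x`, `y`
  have key : ∀ C D : Finset V, D.Nonempty → Disjoint C D → C ∪ D = M ∩ (Y \ Q) →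
      (∀ a ∈ C, ∀ b ∈ D, s(a, b) ∉ red E Y x y Q) → x ∉ D → y ∉ D → False := by
    intro C D hD hCD hW hn hx hy
    have hDM : D ⊆ M ∩ (Y \ Q) := hW ▸ subset_union_right
    refine h ⟨M \ D, D, ?_, hD, ?_, ?_, ?_⟩
    · obtain ⟨q, hq⟩ := hQ
      obtain ⟨h1, h2⟩ := mem_inter.1 hq
      exact ⟨q, mem_sdiff.2 ⟨h1, fun h3 => (mem_sdiff.1 (mem_inter.1 (hDM h3)).2).2 h2⟩⟩
    · rw [disjoint_left]
      intro a ha hb
      exact (mem_sdiff.1 ha).2 hb
    · exact sdiff_union_of_subset fun a ha => (mem_inter.1 (hDM ha)).1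
    · intro a ha b hb hab
      obtain ⟨haM, haD⟩ := mem_sdiff.1 ha
      obtain ⟨hbM, hbYQ⟩ := mem_inter.1 (hDM hb)
      obtain ⟨hbY, hbQ⟩ := mem_sdiff.1 hbYQ
      by_cases haQ : a ∈ Q
      · rcases (sep_mem hs b).1 hbY with rfl | rfl | h1 | h1
        · exact hx hb
        · exact hy hb
        · exact hs.noE b h1 a haQ (by rw [Sym2.eq_swap]; exact hab)
        · exact hbQ h1
      · have haYQ : a ∈ Y \ Q := mem_sdiff.2 ⟨hMY haM, haQ⟩
        have haC : a ∈ C := by
          have h1 : a ∈ C ∪ D := by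
            rw [hW]
            exact mem_inter.2 ⟨haM, haYQ⟩
          rcases mem_union.1 h1 with h1 | h1
          · exact h1
          · exact absurd h1 haD
        refine hn a haC b hb ?_
        unfold red
        refine mem_insert_of_mem (mem_inter.2 ⟨hab, ?_⟩)
        rw [mk_mem_sym2_iff]
        exact ⟨haYQ, hbYQ⟩
  have hxy : s(x, y) ∈ red E Y x y Q := mem_insert_self _ _
  by_cases hx : x ∈ D
  · have hyC : y ∉ C := fun h1 => hn y h1 x hx (by rw [Sym2.eq_swap]; exact hxy)
    have hxC : x ∉ C := fun h1 => disjoint_left.1 hCD h1 hx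
    exact key D C hC hCD.symm (by rw [union_comm]; exact hW)
      (fun a ha b hb hab => hn b hb a ha (by rw [Sym2.eq_swap]; exact hab)) hxC hyC
  · by_cases hy : y ∈ D
    · have hxC : x ∉ C := fun h1 => hn x h1 y hy hxy
      have hyC : y ∉ C := fun h1 => disjoint_left.1 hCD h1 hy
      exact key D C hC hCD.symm (by rw [union_comm]; exact hW)
        (fun a ha b hb hab => hn b hb a ha (by rw [Sym2.eq_swap]; exact hab)) hxC hyC
    · exact key C D hD hCD hW hn hx hy

theorem unc_pair {E : Finset (Sym2 V)} {Y : Finset V} {x y : V} (hu : Unc E Y x y) {W : Finset V}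
    (hW : W ⊆ {x, y}) : ¬ X2 E Y W := by
  rintro ⟨u, v, P, Q, hs, -, -, ⟨a, haW, haP⟩, b, hbW, hbQ⟩
  have ha := hW haW
  have hb := hW hbW
  simp only [mem_insert, mem_singleton] at ha hb
  rcases ha with rfl | rfl
  · rcases hb with rfl | rfl
    · exact disjoint_left.1 hs.dis haP hbQ
    · exact hu u v P Q hs ⟨haP, hbQ⟩
  · rcases hb with rfl | rfl
    · exact hu u v Q P hs.symm ⟨hbQ, haP⟩
    · exact disjoint_left.1 hs.dis haP hbQ

/-- (L2U). -/
theorem l2u [Fintype V] (hf : Facts V)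
    (s10 : ∀ (E : Finset (Sym2 V)) (Y M : Finset V), TCY E Y → (∀ x y P Q, ¬ Sep E Y x y P Q) → M ⊆ Y →
      ¬ Disc M E → ¬ Cov E M → AC (Ch fun W : Finset V => ¬ Cov E W ∧ W ⊂ M)) (k : ℕ) :
    ∀ (E : Finset (Sym2 V)) (Y M : Finset V), Y.card = k → TCY E Y → M ⊆ Y → ¬ Disc M E → U E Y M →
      AC (Ch fun W : Finset V => (U E Y W ∨ X2 E Y W) ∧ W ⊂ M) := by
  induction k using Nat.strong_induction_on with
  | _ k ih =>
    intro E Y M hk hT hMY hM hU
    by_cases hsep : ∃ x y P Q, Sep E Y x y P Q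
    · by_cases h2 : ∀ v ∈ Y, dg E v = 2
      · exact absurd hU (hf.s9 E Y M hT h2)
      obtain ⟨x, y, P, Q, hs, hu⟩ := hf.s8 E Y hT hsep h2
      -- the reduction
      have hred : ∀ (P Q N : Finset V), Sep E Y x y P Q → N ⊆ Y \ Q → ¬ Disc N (red E Y x y Q) →
          U E Y N → AC (Ch fun W : Finset V => (U E Y W ∨ X2 E Y W) ∧ W ⊂ N) := by
        intro P Q N hs hN hNc hNU
        have h3 := ih (Y \ Q).card (by rw [← hk]; exact sep_card hs) (red E Y x y Q) (Y \ Q) N rfl
          (hf.s1 E Y x y P Q hT hs) hN hNc (hf.s7u E Y x y P Q N hT hu hs hN hNU)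
        refine ac_congr (fun c => ?_) h3
        have e : (fun W : Finset V => (U (red E Y x y Q) (Y \ Q) W ∨ X2 (red E Y x y Q) (Y \ Q) W) ∧ W ⊂ N) =
            fun W : Finset V => (U E Y W ∨ X2 E Y W) ∧ W ⊂ N := by
          funext W
          refine propext ⟨?_, ?_⟩
          · rintro ⟨h4 | h4, h5⟩
            · exact ⟨Or.inl (U.step hs h4), h5⟩
            · exact ⟨Or.inr ((hf.s7x E Y x y P Q W hT hu hs (h5.1.trans hN)).2 h4), h5⟩
          · rintro ⟨h4 | h4, h5⟩
            · exact ⟨Or.inl (hf.s7u E Y x y P Q W hT hu hs (h5.1.trans hN) h4), h5⟩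
            · exact ⟨Or.inr ((hf.s7x E Y x y P Q W hT hu hs (h5.1.trans hN)).1 h4), h5⟩
        rw [e]
      by_cases hMQ : (M ∩ Q).Nonempty
      · by_cases hMP : (M ∩ P).Nonempty
        · -- both sides
          have hz : x ∈ M ∨ y ∈ M := by
            by_contra hcon
            push Not at hcon
            refine hM (x2_disc hT.sub ⟨x, y, P, Q, hs, hcon.1, hcon.2, ?_, ?_⟩)
            · obtain ⟨a, ha⟩ := hMP
              exact ⟨a, (mem_inter.1 ha).1, (mem_inter.1 ha).2⟩
            · obtain ⟨a, ha⟩ := hMQ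
              exact ⟨a, (mem_inter.1 ha).1, (mem_inter.1 ha).2⟩
          have hYQ : P ∪ {x, y} = Y \ Q := by
            rw [sep_sub hs]
            ext v
            simp only [mem_union, mem_insert, mem_singleton]
            tauto
          have hYP : Q ∪ {x, y} = Y \ P := by
            rw [sep_sub hs.symm]
            ext v
            simp only [mem_union, mem_insert, mem_singleton]
            tauto
          refine H30D.step_i (P := fun W => U E Y W ∨ X2 E Y W) (M := M) (Cc := P) (Dd := Q)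
            (Z := {x, y}) hs.dis ?_ ?_ ?_ hMP hMQ ?_ ?_ ?_ ?_ ?_ ?_ ?_
          · rw [disjoint_left]
            intro a ha hb
            simp only [mem_insert, mem_singleton] at hb
            rcases hb with rfl | rfl
            · exact hs.xP ha
            · exact hs.yP ha
          · rw [disjoint_left]
            intro a ha hb
            simp only [mem_insert, mem_singleton] at hb
            rcases hb with rfl | rfl
            · exact hs.xQ ha
            · exact hs.yQ ha
          · intro a ha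
            have h1 := (sep_mem hs a).1 (hMY ha)
            simp only [mem_union, mem_insert, mem_singleton]
            tauto
          · rcases hz with h1 | h1
            · exact ⟨x, mem_inter.2 ⟨h1, by simp⟩⟩
            · exact ⟨y, mem_inter.2 ⟨h1, by simp⟩⟩
          · intro W _ hWZ hWP hWQ
            rw [disjoint_left] at hWZ
            refine Or.inr ⟨x, y, P, Q, hs, fun h => hWZ h (by simp), fun h => hWZ h (by simp), ?_, ?_⟩
            · obtain ⟨a, ha⟩ := hWP
              exact ⟨a, (mem_inter.1 ha).1, (mem_inter.1 ha).2⟩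
            · obtain ⟨a, ha⟩ := hWQ
              exact ⟨a, (mem_inter.1 ha).1, (mem_inter.1 ha).2⟩
          · rintro W hW (h1 | h1)
            · refine hf.s4 E Y W hT ?_ h1
              exact (card_le_card (inter_subset_left.trans hW)).trans card_le_two
            · exact unc_pair hu hW h1
          · intro W hWM hW hPW B hB
            rcases hPW with h1 | h1
            · exact Or.inl (h1.up subset_union_left)
            · exact Or.inr (hf.xadd E Y x y P Q W B hT hu hs (by rw [← hYQ]; exact hW) h1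
                (hB.trans inter_subset_right))
          · intro W hWM hW hPW B hB
            rcases hPW with h1 | h1
            · exact Or.inl (h1.up subset_union_left)
            · exact Or.inr (hf.xadd E Y x y Q P W B hT hu hs.symm (by rw [← hYP]; exact hW) h1
                (hB.trans inter_subset_right))
          · intro hP
            rw [hYQ] at hP ⊢
            have hc := red_conn' hs hMY hM hMQ hz
            refine hred P Q _ hs inter_subset_right hc ?_
            rcases hP with h1 | h1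
            · exact h1
            · exact absurd (x2_disc (hf.s1 E Y x y P Q hT hs).sub
                ((hf.s7x E Y x y P Q _ hT hu hs inter_subset_right).1 h1)) hc
          · intro hP
            rw [hYP] at hP ⊢
            have hc := red_conn' hs.symm hMY hM hMP hz
            refine hred Q P _ hs.symm inter_subset_right hc ?_
            rcases hP with h1 | h1
            · exact h1
            · exact absurd (x2_disc (hf.s1 E Y x y Q P hT hs.symm).sub
                ((hf.s7x E Y x y Q P _ hT hu hs.symm inter_subset_right).1 h1)) hc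
        · -- inside `Y \ P`
          have hN : M ⊆ Y \ P := fun a ha => mem_sdiff.2 ⟨hMY ha, fun h =>
            hMP ⟨a, mem_inter.2 ⟨ha, h⟩⟩⟩
          exact hred Q P M hs.symm hN (red_conn hN hM) hU
      · have hN : M ⊆ Y \ Q := fun a ha => mem_sdiff.2 ⟨hMY ha, fun h =>
          hMQ ⟨a, mem_inter.2 ⟨ha, h⟩⟩⟩
        exact hred P Q M hs hN (red_conn hN hM) hU
    · -- no separation
      have hno : ∀ x y P Q, ¬ Sep E Y x y P Q := fun x y P Q h => hsep ⟨x, y, P, Q, h⟩
      have hiff : ∀ W, W ⊆ Y → (U E Y W ↔ ¬ Cov E W) := by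
        intro W hW
        constructor
        · intro h
          have := u_noSep hno h
          rwa [inter_eq_left.2 hW] at this
        · intro h
          exact U.base (by rwa [inter_eq_left.2 hW])
      have h1 := s10 E Y M hT hno hMY hM ((hiff M hMY).1 hU)
      refine ac_congr (fun c => ?_) h1
      have e : (fun W : Finset V => ¬ Cov E W ∧ W ⊂ M) =
          fun W : Finset V => (U E Y W ∨ X2 E Y W) ∧ W ⊂ M := by
        funext W
        refine propext ⟨?_, ?_⟩
        · rintro ⟨h2, h3⟩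
          exact ⟨Or.inl ((hiff W (h3.1.trans hMY)).2 h2), h3⟩
        · rintro ⟨h2 | h2, h3⟩
          · exact ⟨(hiff W (h3.1.trans hMY)).1 h2, h3⟩
          · obtain ⟨x, y, P, Q, hs, -⟩ := h2
            exact absurd hs (hno x y P Q)
      rw [e]

/-- (S10): the base case. -/
theorem base10 [Fintype V] (E : Finset (Sym2 V)) (Y M : Finset V) (hT : TCY E Y) (hMY : M ⊆ Y)
    (hM : ¬ Disc M E) (hC : ¬ Cov E M) : AC (Ch fun W : Finset V => ¬ Cov E W ∧ W ⊂ M) := by
  have hne : M.Nonempty := by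
    rw [nonempty_iff_ne_empty]
    rintro rfl
    exact hC (cov_empty E)
  obtain ⟨w, hw⟩ := hne
  have h1 := H96TF.ac_nf (G := E) (Pi := Cov E) (fun A B h hB => cov_sub h hB)
    (fun A b d U hb hd hbU hdU hU hin => exch_set hT.loop hb hd hbU hdU hU hin) M.card M ∅ rfl hM
    ⟨w, hw, by
      have h2 := cov_two hT (hMY hw) (hMY hw)
      rwa [pair_eq_singleton] at h2⟩ (by rwa [union_empty])
  refine ac_congr (fun c => ?_) h1
  have e : (fun W' : Finset V => W' ⊆ M ∧ W' ≠ M ∧ ¬ Cov E (W' ∪ ∅)) =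
      fun W : Finset V => ¬ Cov E W ∧ W ⊂ M := by
    funext W
    rw [union_empty]
    refine propext ⟨fun h => ⟨h.2.2, Finset.ssubset_iff_subset_ne.2 ⟨h.1, h.2.1⟩⟩, fun h => ⟨h.2.1, h.2.ne, h.1⟩⟩
  rw [e]

/-- (L2U) with the base case. -/
theorem l2u_full [Fintype V] (hf : Facts V) {E : Finset (Sym2 V)} {Y M : Finset V} (hT : TCY E Y)
    (hMY : M ⊆ Y) (hM : ¬ Disc M E) (hU : U E Y M) :
    AC (Ch fun W : Finset V => (U E Y W ∨ X2 E Y W) ∧ W ⊂ M) :=
  l2u hf (fun E Y M hT _ hMY hM hC => base10 E Y M hT hMY hM hC) Y.card E Y M rfl hT hMY hM hU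

/-- (L1U). -/
theorem l1u [Fintype V] (hf : Facts V) {E : Finset (Sym2 V)} (hT : TCY E univ)
    (hsep : ∃ x y P Q, Sep E univ x y P Q) (h2 : ¬ (∀ v, dg E v = 2)) :
    AC (Ch fun W : Finset V => X2 E univ W) := by
  obtain ⟨x, y, P, Q, hs, hu⟩ := hf.s8 E univ hT hsep (fun h => h2 fun v => h v (mem_univ v))
  have hYQ : P ∪ {x, y} = univ \ Q := by
    rw [sep_sub hs]
    ext v
    simp only [mem_union, mem_insert, mem_singleton]
    tauto
  have hYP : Q ∪ {x, y} = univ \ P := by
    rw [sep_sub hs.symm]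
    ext v
    simp only [mem_union, mem_insert, mem_singleton]
    tauto
  have h1 : AC (Ch fun W : Finset V => X2 E univ W ∧ W ⊂ univ) := by
    refine H30D.step_i (P := fun W => X2 E univ W) (M := univ) (Cc := P) (Dd := Q)
      (Z := {x, y}) hs.dis ?_ ?_ ?_ ?_ ?_ ?_ ?_ ?_ ?_ ?_ ?_ ?_
    · rw [disjoint_left]
      intro a ha hb
      simp only [mem_insert, mem_singleton] at hb
      rcases hb with rfl | rfl
      · exact hs.xP ha
      · exact hs.yP ha
    · rw [disjoint_left]
      intro a ha hb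
      simp only [mem_insert, mem_singleton] at hb
      rcases hb with rfl | rfl
      · exact hs.xQ ha
      · exact hs.yQ ha
    · intro a ha
      have h1 := (sep_mem hs a).1 ha
      simp only [mem_union, mem_insert, mem_singleton]
      tauto
    · obtain ⟨a, ha⟩ := hs.P0
      exact ⟨a, mem_inter.2 ⟨mem_univ _, ha⟩⟩
    · obtain ⟨a, ha⟩ := hs.Q0
      exact ⟨a, mem_inter.2 ⟨mem_univ _, ha⟩⟩
    · exact ⟨x, by simp⟩
    · intro W _ hWZ hWP hWQ
      rw [disjoint_left] at hWZ
      refine ⟨x, y, P, Q, hs, fun h => hWZ h (by simp), fun h => hWZ h (by simp), ?_, ?_⟩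
      · obtain ⟨a, ha⟩ := hWP
        exact ⟨a, (mem_inter.1 ha).1, (mem_inter.1 ha).2⟩
      · obtain ⟨a, ha⟩ := hWQ
        exact ⟨a, (mem_inter.1 ha).1, (mem_inter.1 ha).2⟩
    · exact fun W hW h1 => unc_pair hu hW h1
    · intro W _ hW h1 B hB
      exact hf.xadd E univ x y P Q W B hT hu hs (by rw [← hYQ]; exact hW) h1
        (hB.trans inter_subset_right)
    · intro W _ hW h1 B hB
      exact hf.xadd E univ x y Q P W B hT hu hs.symm (by rw [← hYP]; exact hW) h1
        (hB.trans inter_subset_right)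
    · intro hP
      rw [hYQ, univ_inter] at hP
      exact absurd (x2_disc (hf.s1 E univ x y P Q hT hs).sub
        ((hf.s7x E univ x y P Q _ hT hu hs Subset.rfl).1 hP)) (hf.s1 E univ x y P Q hT hs).conn
    · intro hP
      rw [hYP, univ_inter] at hP
      exact absurd (x2_disc (hf.s1 E univ x y Q P hT hs.symm).sub
        ((hf.s7x E univ x y Q P _ hT hu hs.symm Subset.rfl).1 hP)) (hf.s1 E univ x y Q P hT hs.symm).conn
  refine ac_congr (fun c => ?_) h1
  have e : (fun W : Finset V => X2 E univ W ∧ W ⊂ univ) = fun W : Finset V => X2 E univ W := by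
    funext W
    refine propext ⟨fun h => h.1, fun h => ⟨h, ?_⟩⟩
    obtain ⟨x, y, P, Q, -, hx, -⟩ := h
    exact ⟨subset_univ _, fun h => hx (h (mem_univ x))⟩
  rw [e]

end lu

end H36R
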