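import Pool.Agent.Lib.H36R.L2U
import Pool.Agent.Lib.H77D4.Def
import Pool.Agent.Lib.H97C.Y

/-!
# H36R, file L2U4: the lower links of the connected members of the family `U4` or `X2` are acyclic
(form D with cycles of length at least 4)
-/

set_option autoImplicit false

namespace H36R

open Finset H98P H63F H98M H30F H85TF LD H75U H77D4

/-- The facts of the plan, for `U4`. -/
structure Facts4 (V : Type) [DecidableEq V] : Prop where
  s1 : ∀ (E : Finset (Sym2 V)) (Y : Finset V) (x y : V) (P Q : Finset V), TCY E Y → Sep E Y x y P Q →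
    TCY (red E Y x y Q) (Y \ Q)
  s4 : ∀ (E : Finset (Sym2 V)) (Y W : Finset V), TCY E Y → (W ∩ Y).card ≤ 2 → ¬ U4 E Y W
  s7u : ∀ (E : Finset (Sym2 V)) (Y : Finset V) (x y : V) (P Q W : Finset V), TCY E Y → Unc E Y x y →
    Sep E Y x y P Q → W ⊆ Y \ Q → U4 E Y W → U4 (red E Y x y Q) (Y \ Q) W
  s7x : ∀ (E : Finset (Sym2 V)) (Y : Finset V) (x y : V) (P Q W : Finset V), TCY E Y → Unc E Y x y →
    Sep E Y x y P Q → W ⊆ Y \ Q → (X2 E Y W ↔ X2 (red E Y x y Q) (Y \ Q) W)
  s8 : ∀ (E : Finset (Sym2 V)) (Y : Finset V), TCY E Y → (∃ x y P Q, Sep E Y x y P Q) →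
    ¬ (∀ v ∈ Y, dg E v = 2) → ∃ x y P Q, Sep E Y x y P Q ∧ Unc E Y x y
  s9 : ∀ (E : Finset (Sym2 V)) (Y W : Finset V), TCY E Y → (∀ v ∈ Y, dg E v = 2) → ¬ U4 E Y W
  xadd : ∀ (E : Finset (Sym2 V)) (Y : Finset V) (x y : V) (P Q W B : Finset V), TCY E Y → Unc E Y x y →
    Sep E Y x y P Q → W ⊆ Y \ Q → X2 E Y W → B ⊆ Q → X2 E Y (W ∪ B)

section lu4

variable {V : Type} [DecidableEq V]

/-- (L2U). -/
theorem l2u4 [Fintype V] (hf : Facts4 V)
    (s10 : ∀ (E : Finset (Sym2 V)) (Y M : Finset V), TCY E Y → 4 ≤ Y.card → (∀ x y P Q, ¬ Sep E Y x y P Q) →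
      M ⊆ Y → ¬ Disc M E → ¬ Cov4 E M → AC (Ch fun W : Finset V => ¬ Cov4 E W ∧ W ⊂ M)) (k : ℕ) :
    ∀ (E : Finset (Sym2 V)) (Y M : Finset V), Y.card = k → TCY E Y → M ⊆ Y → ¬ Disc M E → U4 E Y M →
      AC (Ch fun W : Finset V => (U4 E Y W ∨ X2 E Y W) ∧ W ⊂ M) := by
  induction k using Nat.strong_induction_on with
  | _ k ih =>
    intro E Y M hk hT hMY hM hU
    by_cases hsep : ∃ x y P Q, Sep E Y x y P Q
    · by_cases h2 : ∀ v ∈ Y, dg E v = 2
      · exact absurd hU (hf.s9 E Y M hT h2)
      obtain ⟨x, y, P, Q, hs, hu⟩ := hf.s8 E Y hT hsep h2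
      -- the reduction
      have hred : ∀ (P Q N : Finset V), Sep E Y x y P Q → N ⊆ Y \ Q → ¬ Disc N (red E Y x y Q) →
          U4 E Y N → AC (Ch fun W : Finset V => (U4 E Y W ∨ X2 E Y W) ∧ W ⊂ N) := by
        intro P Q N hs hN hNc hNU
        have h3 := ih (Y \ Q).card (by rw [← hk]; exact sep_card hs) (red E Y x y Q) (Y \ Q) N rfl
          (hf.s1 E Y x y P Q hT hs) hN hNc (hf.s7u E Y x y P Q N hT hu hs hN hNU)
        refine ac_congr (fun c => ?_) h3
        have e : (fun W : Finset V => (U4 (red E Y x y Q) (Y \ Q) W ∨ X2 (red E Y x y Q) (Y \ Q) W) ∧ W ⊂ N) =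
            fun W : Finset V => (U4 E Y W ∨ X2 E Y W) ∧ W ⊂ N := by
          funext W
          refine propext ⟨?_, ?_⟩
          · rintro ⟨h4 | h4, h5⟩
            · exact ⟨Or.inl (U4.step hs h4), h5⟩
            · exact ⟨Or.inr ((hf.s7x E Y x y P Q W hT hu hs (h5.1.trans hN)).2 h4), h5⟩
          · rintro ⟨h4 | h4, h5⟩
            · exact ⟨Or.inl (hf.s7u E Y x y P Q W hT hu hs (h5.1.trans hN) h4), h5⟩
            · exact ⟨Or.inr ((hf.s7x E Y x y P Q W hT hu hs (h5.1.trans hN)).1 h4), h5⟩
        rw [e]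
      by_cases hMQ : (M ∩ Q).Nonempty
      · by_cases hMP : (M ∩ P).Nonempty
        · -- both sides
          have hz : x ∈ M ∨ y ∈ M := by
            by_contra hcon
            push Not at hcon
            refine hM (x2_disc hT.sub ⟨x, y, P, Q, hs, hcon.1, hcon.2, ?_, ?_⟩)
            · obtain ⟨a, ha⟩ := hMP
              exact ⟨a, (mem_inter.1 ha).1, (mem_inter.1 ha).2⟩
            · obtain ⟨a, ha⟩ := hMQ
              exact ⟨a, (mem_inter.1 ha).1, (mem_inter.1 ha).2⟩
          have hYQ : P ∪ {x, y} = Y \ Q := by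
            rw [sep_sub hs]
            ext v
            simp only [mem_union, mem_insert, mem_singleton]
            tauto
          have hYP : Q ∪ {x, y} = Y \ P := by
            rw [sep_sub hs.symm]
            ext v
            simp only [mem_union, mem_insert, mem_singleton]
            tauto
          refine H30D.step_i (P := fun W => U4 E Y W ∨ X2 E Y W) (M := M) (Cc := P) (Dd := Q)
            (Z := {x, y}) hs.dis ?_ ?_ ?_ hMP hMQ ?_ ?_ ?_ ?_ ?_ ?_ ?_
          · rw [disjoint_left]
            intro a ha hb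
            simp only [mem_insert, mem_singleton] at hb
            rcases hb with rfl | rfl
            · exact hs.xP ha
            · exact hs.yP ha
          · rw [disjoint_left]
            intro a ha hb
            simp only [mem_insert, mem_singleton] at hb
            rcases hb with rfl | rfl
            · exact hs.xQ ha
            · exact hs.yQ ha
          · intro a ha
            have h1 := (sep_mem hs a).1 (hMY ha)
            simp only [mem_union, mem_insert, mem_singleton]
            tauto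
          · rcases hz with h1 | h1
            · exact ⟨x, mem_inter.2 ⟨h1, by simp⟩⟩
            · exact ⟨y, mem_inter.2 ⟨h1, by simp⟩⟩
          · intro W _ hWZ hWP hWQ
            rw [disjoint_left] at hWZ
            refine Or.inr ⟨x, y, P, Q, hs, fun h => hWZ h (by simp), fun h => hWZ h (by simp), ?_, ?_⟩
            · obtain ⟨a, ha⟩ := hWP
              exact ⟨a, (mem_inter.1 ha).1, (mem_inter.1 ha).2⟩
            · obtain ⟨a, ha⟩ := hWQ
              exact ⟨a, (mem_inter.1 ha).1, (mem_inter.1 ha).2⟩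
          · rintro W hW (h1 | h1)
            · refine hf.s4 E Y W hT ?_ h1
              exact (card_le_card (inter_subset_left.trans hW)).trans card_le_two
            · exact unc_pair hu hW h1
          · intro W hWM hW hPW B hB
            rcases hPW with h1 | h1
            · exact Or.inl (h1.up subset_union_left)
            · exact Or.inr (hf.xadd E Y x y P Q W B hT hu hs (by rw [← hYQ]; exact hW) h1
                (hB.trans inter_subset_right))
          · intro W hWM hW hPW B hB
            rcases hPW with h1 | h1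
            · exact Or.inl (h1.up subset_union_left)
            · exact Or.inr (hf.xadd E Y x y Q P W B hT hu hs.symm (by rw [← hYP]; exact hW) h1
                (hB.trans inter_subset_right))
          · intro hP
            rw [hYQ] at hP ⊢
            have hc := red_conn' hs hMY hM hMQ hz
            refine hred P Q _ hs inter_subset_right hc ?_
            rcases hP with h1 | h1
            · exact h1
            · exact absurd (x2_disc (hf.s1 E Y x y P Q hT hs).sub
                ((hf.s7x E Y x y P Q _ hT hu hs inter_subset_right).1 h1)) hc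
          · intro hP
            rw [hYP] at hP ⊢
            have hc := red_conn' hs.symm hMY hM hMP hz
            refine hred Q P _ hs.symm inter_subset_right hc ?_
            rcases hP with h1 | h1
            · exact h1
            · exact absurd (x2_disc (hf.s1 E Y x y Q P hT hs.symm).sub
                ((hf.s7x E Y x y Q P _ hT hu hs.symm inter_subset_right).1 h1)) hc
        · -- inside `Y \ P`
          have hN : M ⊆ Y \ P := fun a ha => mem_sdiff.2 ⟨hMY ha, fun h =>
            hMP ⟨a, mem_inter.2 ⟨ha, h⟩⟩⟩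
          exact hred Q P M hs.symm hN (red_conn hN hM) hU
      · have hN : M ⊆ Y \ Q := fun a ha => mem_sdiff.2 ⟨hMY ha, fun h =>
          hMQ ⟨a, mem_inter.2 ⟨ha, h⟩⟩⟩
        exact hred P Q M hs hN (red_conn hN hM) hU
    · -- no separation
      have hno : ∀ x y P Q, ¬ Sep E Y x y P Q := fun x y P Q h => hsep ⟨x, y, P, Q, h⟩
      have h4 : 4 ≤ Y.card := (u4_noSep hno hU).1
      have hiff : ∀ W, W ⊆ Y → (U4 E Y W ↔ ¬ Cov4 E W) := by
        intro W hW
        constructor
        · intro h
          have := (u4_noSep hno h).2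
          rwa [inter_eq_left.2 hW] at this
        · intro h
          exact U4.base h4 (by rwa [inter_eq_left.2 hW])
      have h1 := s10 E Y M hT h4 hno hMY hM ((hiff M hMY).1 hU)
      refine ac_congr (fun c => ?_) h1
      have e : (fun W : Finset V => ¬ Cov4 E W ∧ W ⊂ M) =
          fun W : Finset V => (U4 E Y W ∨ X2 E Y W) ∧ W ⊂ M := by
        funext W
        refine propext ⟨?_, ?_⟩
        · rintro ⟨h2, h3⟩
          exact ⟨Or.inl ((hiff W (h3.1.trans hMY)).2 h2), h3⟩
        · rintro ⟨h2 | h2, h3⟩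
          · exact ⟨(hiff W (h3.1.trans hMY)).1 h2, h3⟩
          · obtain ⟨x, y, P, Q, hs, -⟩ := h2
            exact absurd hs (hno x y P Q)
      rw [e]

/-- (S10): the base case. -/
theorem base10_4 [Fintype V] (E : Finset (Sym2 V)) (Y M : Finset V) (hT : TCY E Y) (h4 : 4 ≤ Y.card)
    (hMY : M ⊆ Y) (hM : ¬ Disc M E) (hC : ¬ Cov4 E M) :
    AC (Ch fun W : Finset V => ¬ Cov4 E W ∧ W ⊂ M) := by
  have hne : M.Nonempty := by
    rw [nonempty_iff_ne_empty]
    rintro rfl
    exact hC ⟨∅, empty_subset _, fun a b c h => absurd h (notMem_empty _), fun v => Or.inl (by unfold dg; simp),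
      fun v hv => absurd hv (notMem_empty _)⟩
  obtain ⟨w, hw⟩ := hne
  have h1 := H96TF.ac_nf (G := E) (Pi := Cov4 E) (fun A B h hB => cov4_sub h hB)
    (fun A b d U hb hd hbU hdU hU hin => exch4_set hT.loop hb hd hbU hdU hU hin) M.card M ∅ rfl hM
    ⟨w, hw, by
      have h2 := H97C.cov4_two hT h4 (hMY hw) (hMY hw)
      rwa [pair_eq_singleton] at h2⟩ (by rwa [union_empty])
  refine ac_congr (fun c => ?_) h1
  have e : (fun W' : Finset V => W' ⊆ M ∧ W' ≠ M ∧ ¬ Cov4 E (W' ∪ ∅)) =
      fun W : Finset V => ¬ Cov4 E W ∧ W ⊂ M := by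
    funext W
    rw [union_empty]
    refine propext ⟨fun h => ⟨h.2.2, Finset.ssubset_iff_subset_ne.2 ⟨h.1, h.2.1⟩⟩, fun h => ⟨h.2.1, h.2.ne, h.1⟩⟩
  rw [e]

/-- (L2U) with the base case. -/
theorem l2u_full4 [Fintype V] (hf : Facts4 V) {E : Finset (Sym2 V)} {Y M : Finset V} (hT : TCY E Y)
    (hMY : M ⊆ Y) (hM : ¬ Disc M E) (hU : U4 E Y M) :
    AC (Ch fun W : Finset V => (U4 E Y W ∨ X2 E Y W) ∧ W ⊂ M) :=
  l2u4 hf (fun E Y M hT h4 _ hMY hM hC => base10_4 E Y M hT h4 hMY hM hC) Y.card E Y M rfl hT hMY hM hU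

end lu4

end H36R
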