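import Pool.Agent.Lib.H36R.CQ
import Pool.Agent.Lib.H9TP.Exch5
import Pool.Agent.Lib.H98TF.Gen
import Pool.Agent.Lib.H98TF.Draw

/-!
# H36R, file P5: prescribed pair `s`, `t`: a spanning union of a path from `s` to `t` and cycles of length at least `5`

`plus2 G s t` is `G` with a new path `s - z1 - z2 - t`, `z1 = none`, `z2 = some none`. `Pi5 s t G A`: the vertex set `A`
and `z1`, `z2` are covered by pairwise disjoint cycles of length at least five of `plus2 G s t`.
-/

set_option autoImplicit false
set_option linter.unusedSectionVars false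

namespace H36R

open Finset H98P H98Z H98M H63F H30F H85TF

/-- Two non-adjacent vertices of a 2-connected graph are on one cycle `F`: degrees `0` and `2`, and a set closed under
`F` which contains a vertex of `F` contains all of them. -/
theorem cov_pair_raw {V : Type} [Fintype V] [DecidableEq V] {E : Finset (Sym2 V)} (hE : ∀ e ∈ E, ¬ e.IsDiag)
    (hc : ¬ Disc univ E) (hcut : ∀ z, ¬ Disc (univ.erase z) E) {z w : V}
    (hzw : z ≠ w) (hn : s(z, w) ∉ E) :
    ∃ F ⊆ E, (∀ v, dg F v = 0 ∨ dg F v = 2) ∧ dg F z = 2 ∧ dg F w = 2 ∧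
      ∀ T : Finset V, (∀ a ∈ T, ∀ b, s(a, b) ∈ F → b ∈ T) → ∀ x ∈ T, dg F x ≠ 0 →
        ∀ y, dg F y ≠ 0 → y ∈ T := by
  classical
  set G := SimpleGraph.fromEdgeSet (E : Set (Sym2 V)) with hG
  have hadj : ∀ a b, G.Adj a b ↔ s(a, b) ∈ E ∧ a ≠ b := by
    intro a b
    rw [hG, SimpleGraph.fromEdgeSet_adj]
    exact and_congr (by exact_mod_cast Iff.rfl) Iff.rfl
  obtain ⟨S, hS⟩ : ∃ S : Finset V, ∀ x, x ∈ S ↔ x ≠ z ∧ x ≠ w :=
    ⟨univ.filter fun x => x ≠ z ∧ x ≠ w, fun x => by simp⟩
  obtain ⟨A, hA⟩ : ∃ A : Finset V, ∀ x, x ∈ A ↔ x ∈ S ∧ s(z, x) ∈ E :=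
    ⟨S.filter fun x => s(z, x) ∈ E, fun x => by simp⟩
  obtain ⟨B, hB⟩ : ∃ B : Finset V, ∀ x, x ∈ B ↔ x ∈ S ∧ s(w, x) ∈ E :=
    ⟨S.filter fun x => s(w, x) ∈ E, fun x => by simp⟩
  obtain ⟨C, D, hCS, hDS, hC, hD, ⟨a, haC, haA⟩, ⟨b, hbC, hbB⟩, ⟨c, hcD, hcA⟩, ⟨d, hdD, hdB⟩, hCD⟩ :=
    two_link G S A B (fun x hx => ((hA x).1 hx).1) (fun x hx => ((hB x).1 hx).1) (by
      intro Z U hZ hU hAU hUB hcl
      by_contra hlt
      have hdisc : Disc (univ \ Z) E := by
        refine disc_of_sep hzw hn (fun h => ((hS z).1 (hZ h)).1 rfl) (fun h => ((hS w).1 (hZ h)).2 rfl)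
          (U := U) (fun x hx => ⟨((hS x).1 (hU x hx).1).1, ((hS x).1 (hU x hx).1).2, (hU x hx).2⟩) ?_ ?_ ?_
        · intro x hx h1 h2 h4
          exact hAU x ((hA x).2 ⟨(hS x).2 ⟨h1, h2⟩, hx⟩) h4
        · intro x hx h1
          exact hUB x hx ((hB x).2 ⟨(hU x hx).1, h1⟩)
        · intro x hx y h1 h2 h4 h5 h6
          refine hcl x hx y ((hS y).2 ⟨h1, h2⟩) h4 h5 ((hadj x y).2 ⟨h6, ?_⟩)
          rintro rfl
          exact h5 hx
      have hcard : Z.card = 0 ∨ Z.card = 1 := by omega
      rcases hcard with h0 | h1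
      · rw [card_eq_zero] at h0
        subst h0
        rw [sdiff_empty] at hdisc
        exact hc hdisc
      · obtain ⟨v, rfl⟩ := card_eq_one.1 h1
        rw [sdiff_singleton_eq_erase] at hdisc
        exact hcut v hdisc)
  obtain ⟨p, hp, hpC⟩ := path_of_not_disc (not_disc_of_conn hC) haC hbC
  obtain ⟨q, hq, hqD⟩ := path_of_not_disc (not_disc_of_conn hD) hdD hcD
  have haz : a ≠ z := ((hS a).1 ((hA a).1 haA).1).1
  have hcz : c ≠ z := ((hS c).1 ((hA c).1 hcA).1).1
  have hbw : G.Adj b w := (hadj b w).2 ⟨by rw [Sym2.eq_swap]; exact ((hB b).1 hbB).2,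
    ((hS b).1 ((hB b).1 hbB).1).2⟩
  have hwd : G.Adj w d := (hadj w d).2 ⟨((hB d).1 hdB).2, Ne.symm ((hS d).1 ((hB d).1 hdB).1).2⟩
  have hac : a ≠ c := by
    rintro rfl
    exact hCD a haC hcD
  set r := p.append (SimpleGraph.Walk.cons hbw (SimpleGraph.Walk.cons hwd q)) with hr
  have hsup : r.support = p.support ++ (w :: q.support) := by
    rw [hr, SimpleGraph.Walk.support_append]
    simp
  have hrp : r.IsPath := by
    rw [SimpleGraph.Walk.isPath_def, hsup]
    refine List.Nodup.append (by rw [← SimpleGraph.Walk.isPath_def]; exact hp) ?_ ?_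
    · rw [List.nodup_cons]
      exact ⟨fun h => ((hS w).1 (hDS (hqD w h))).2 rfl, by rw [← SimpleGraph.Walk.isPath_def]; exact hq⟩
    · intro x hx hx'
      rcases List.mem_cons.1 hx' with rfl | hx'
      · exact ((hS x).1 (hCS (hpC x hx))).2 rfl
      · exact hCD x (hpC x hx) (hqD x hx')
  have hrz : ∀ x ∈ r.support, x ≠ z := by
    intro x hx
    rw [hsup, List.mem_append, List.mem_cons] at hx
    rcases hx with hx | rfl | hx
    · exact ((hS x).1 (hCS (hpC x hx))).1
    · exact Ne.symm hzw
    · exact ((hS x).1 (hDS (hqD x hx))).1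
  have hza := ((hA a).1 haA).2
  have hzc := ((hA c).1 hcA).2
  have hn1 : s(z, c) ∉ (∅ : Finset (Sym2 V)) := notMem_empty _
  have hn2 : s(z, a) ∉ insert s(z, c) (∅ : Finset (Sym2 V)) := by
    intro h
    rcases mem_insert.1 h with h | h
    · rw [Sym2.eq_iff] at h
      rcases h with h | h
      · exact hac h.2
      · exact hcz h.1.symm
    · exact notMem_empty _ h
  have key : ∀ x, dg (insert s(z, a) (insert s(z, c) (∅ : Finset (Sym2 V)))) x =
      (if x = z ∨ x = c then 1 else 0) + if x = z ∨ x = a then 1 else 0 := by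
    intro x
    rw [dg_insert hn2, dg_insert hn1]
    simp [dg]
  obtain ⟨F', h1, h2, h4, h5, h6, h7, h8⟩ := addPath2 r hrp (insert s(z, a) (insert s(z, c) ∅))
    (insert_subset hza (insert_subset hzc (empty_subset _))) hac
    (by
      intro h
      rcases mem_insert.1 h with h | h
      · rw [Sym2.eq_iff] at h
        rcases h with h | h
        · exact haz h.1
        · exact hcz h.2
      · rcases mem_insert.1 h with h | h
        · rw [Sym2.eq_iff] at h
          rcases h with h | h
          · exact haz h.1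
          · exact hac h.1
        · exact notMem_empty _ h)
    (by rw [key]; simp [haz, hac])
    (by rw [key]; simp [hcz, Ne.symm hac])
    (by
      intro x hx1 hx2
      rw [key]
      by_cases hx : x = z
      · subst hx; simp
      · simp [hx, hx1, hx2])
    (by
      intro x hx hx1 hx2
      rw [key]
      simp [hrz x hx, hx1, hx2])
  have hz2 : dg F' z = 2 := h5 z (by rw [key]; simp)
  have hw2 : dg F' w = 2 := h4 w (by rw [hsup]; simp)
  refine ⟨F', h1, h2, hz2, hw2, ?_⟩
  intro T hT x hx hx0 y hy0
  have hwalk := walk_closed (F := F') (T := T) hT r h7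
  have hin : ∀ v, dg F' v ≠ 0 → v ≠ z → v ∈ r.support := by
    intro v hv hvz
    rcases h8 v hv with h9 | h9
    · rw [key] at h9
      by_cases h10 : v = c
      · rw [h10]
        exact r.end_mem_support
      · by_cases h11 : v = a
        · rw [h11]
          exact r.start_mem_support
        · exact absurd (by simp [hvz, h10, h11]) h9
    · exact h9
  have hza' : z ∈ T ↔ a ∈ T :=
    ⟨fun h => hT z h a (h6 (mem_insert_self _ _)), fun h => hT a h z (by
      rw [Sym2.eq_swap]
      exact h6 (mem_insert_self _ _))⟩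
  have hall : ∀ v, dg F' v ≠ 0 → (v ∈ T ↔ a ∈ T) := by
    intro v hv
    by_cases hvz : v = z
    · rw [hvz]
      exact hza'
    · exact hwalk v (hin v hv hvz)
  exact (hall y hy0).2 ((hall x hx0).1 hx)


section cov5

variable {V : Type*} [DecidableEq V]

/-- `F` has no cycle of length `3` or `4`. -/
def SFf {V : Type*} (F : Finset (Sym2 V)) : Prop := TFf F ∧
  ∀ x y z w : V, x ≠ z → y ≠ w → s(x, y) ∈ F → s(y, z) ∈ F → s(z, w) ∈ F → s(w, x) ∉ F

/-- `A` is covered by pairwise disjoint cycles of `E`, all of length at least five. -/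
def CovF5 (E : Finset (Sym2 V)) (A : Finset V) : Prop :=
  ∃ F ⊆ E, (∀ v, dg F v = 0 ∨ dg F v = 2) ∧ SFf F ∧ ∀ v ∈ A, dg F v = 2

theorem covF5_mono {E E' : Finset (Sym2 V)} {A : Finset V} (h : E ⊆ E') (hA : CovF5 E A) :
    CovF5 E' A := by
  obtain ⟨F, h1, h2, h3, h4⟩ := hA
  exact ⟨F, h1.trans h, h2, h3, h4⟩

theorem covF5_sub {E : Finset (Sym2 V)} {A B : Finset V} (h : A ⊆ B) (hB : CovF5 E B) :
    CovF5 E A := by
  obtain ⟨F, h1, h2, h3, h4⟩ := hB
  exact ⟨F, h1, h2, h3, fun v hv => h4 v (h hv)⟩

/-- The exchange, from `H9TP.exchange5_walk`. -/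
theorem cov5_of {V : Type*} [Fintype V] [DecidableEq V] {E : Finset (Sym2 V)}
    (hE : ∀ e ∈ E, ¬ e.IsDiag) {A : Finset V} (h : CovF5 E A) :
    H9TP.Cov5 (SimpleGraph.fromEdgeSet (E : Set (Sym2 V))) (A : Set V) := by
  obtain ⟨F, h1, h2, h3, h4⟩ := h
  have hF : ∀ e ∈ F, ¬ e.IsDiag := fun e he => hE e (h1 he)
  have hadj : ∀ a b, (SimpleGraph.fromEdgeSet (F : Set (Sym2 V))).Adj a b → s(a, b) ∈ F := by
    intro a b hab
    rw [SimpleGraph.fromEdgeSet_adj] at hab
    exact_mod_cast hab.1
  refine ⟨SimpleGraph.fromEdgeSet (F : Set (Sym2 V)), SimpleGraph.fromEdgeSet_mono (by exact_mod_cast h1),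
    ⟨?_, ?_⟩, ?_, ?_⟩
  · intro a b c hab hbc hac
    exact h3.1 a b c (hadj _ _ hab) (hadj _ _ hbc) (hadj _ _ hac)
  · intro a b c d hac hbd hab hbc hcd hda
    exact h3.2 a b c d hac hbd (hadj _ _ hab) (hadj _ _ hbc) (hadj _ _ hcd) (hadj _ _ hda)
  · intro v
    have := H98TF.degree_gr hF v
    rw [this]
    exact h2 v
  · intro v hv
    have := H98TF.degree_gr hF v
    rw [this]
    exact h4 v (by exact_mod_cast hv)

theorem of_cov5 {V : Type*} [Fintype V] [DecidableEq V] {E : Finset (Sym2 V)} {A : Finset V}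
    (h : H9TP.Cov5 (SimpleGraph.fromEdgeSet (E : Set (Sym2 V))) (A : Set V)) : CovF5 E A := by
  classical
  obtain ⟨F, h1, h3, h2, h4⟩ := h
  have hmem : ∀ a b, s(a, b) ∈ E.filter (fun e => e ∈ F.edgeSet) ↔ F.Adj a b := by
    intro a b
    rw [mem_filter, SimpleGraph.mem_edgeSet]
    refine ⟨fun h => h.2, fun h => ⟨?_, h⟩⟩
    have := h1 h
    rw [SimpleGraph.fromEdgeSet_adj] at this
    exact_mod_cast this.1
  have hdiag : ∀ e ∈ E.filter (fun e => e ∈ F.edgeSet), ¬ e.IsDiag := by
    intro e he
    exact F.not_isDiag_of_mem_edgeSet (mem_filter.1 he).2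
  have hgr : SimpleGraph.fromEdgeSet ((E.filter fun e => e ∈ F.edgeSet : Finset (Sym2 V)) : Set (Sym2 V)) = F := by
    ext a b
    rw [SimpleGraph.fromEdgeSet_adj]
    constructor
    · intro h
      exact (hmem a b).1 (by exact_mod_cast h.1)
    · intro h
      exact ⟨by exact_mod_cast (hmem a b).2 h, h.ne⟩
  have hdg : ∀ v, dg (E.filter fun e => e ∈ F.edgeSet) v = (F.neighborSet v).ncard := by
    intro v
    have h5 := H98TF.degree_gr hdiag v
    unfold H97W.gr at h5
    rw [hgr] at h5
    exact h5.symm
  refine ⟨E.filter fun e => e ∈ F.edgeSet, filter_subset _ _, ?_, ⟨?_, ?_⟩, ?_⟩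
  · intro v
    rw [hdg]
    exact h2 v
  · intro a b c hab hbc hac
    exact h3.1 a b c ((hmem _ _).1 hab) ((hmem _ _).1 hbc) ((hmem _ _).1 hac)
  · intro a b c d hac hbd hab hbc hcd hda
    exact h3.2 a b c d hac hbd ((hmem _ _).1 hab) ((hmem _ _).1 hbc) ((hmem _ _).1 hcd) ((hmem _ _).1 hda)
  · intro v hv
    rw [hdg]
    exact h4 v (by exact_mod_cast hv)

theorem exch5_set {V : Type*} [Fintype V] [DecidableEq V] {E : Finset (Sym2 V)}
    (hE : ∀ e ∈ E, ¬ e.IsDiag) {A U : Finset V} {b d : V} (hb : CovF5 E (insert b A))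
    (hd : CovF5 E (insert d A)) (hbU : b ∈ U) (hdU : d ∈ U) (hU : ¬ Disc U E)
    (hin : ∀ u ∈ U, u ≠ b → u ≠ d → ¬ CovF5 E (insert u A)) : CovF5 E (insert b (insert d A)) := by
  obtain ⟨p, -, hp⟩ := path_of_not_disc hU hbU hdU
  have hb' := cov5_of hE hb
  have hd' := cov5_of hE hd
  rw [coe_insert] at hb' hd'
  have h1 := H9TP.exchange5_walk _ (A : Set V) b d hb' hd' p
    (fun r hr h1 h2 h3 => hin r (hp r hr) h1 h2 (of_cov5 (by rw [coe_insert]; exact h3)))
  refine of_cov5 ?_
  rw [coe_insert, coe_insert, Set.insert_comm]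
  exact h1

end cov5

section plus2

variable {V : Type} [Fintype V] [DecidableEq V]

/-- `G` with a new path `s - none - some none - t`. -/
def plus2 (G : Finset (Sym2 V)) (s t : V) : Finset (Sym2 (Option (Option V))) :=
  plus (plus G t t) (some s) none

/-- `A` together with the two new vertices. -/
def up2 (A : Finset V) : Finset (Option (Option V)) :=
  insert none (insert (some none) (A.image fun v => some (some v)))

theorem plus2_diag {G : Finset (Sym2 V)} {s t : V} (hG : ∀ e ∈ G, ¬ e.IsDiag) :
    ∀ e ∈ plus2 G s t, ¬ e.IsDiag := plus_diag (plus_diag hG)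

theorem plus2_mono {G G' : Finset (Sym2 V)} {s t : V} (h : G ⊆ G') : plus2 G s t ⊆ plus2 G' s t :=
  plus_mono (plus_mono h)

theorem z1s {G : Finset (Sym2 V)} {s t : V} : s(none, some (some s)) ∈ plus2 G s t :=
  mem_plus_none.2 (Or.inl rfl)

theorem z1z2 {G : Finset (Sym2 V)} {s t : V} : s(none, some none) ∈ plus2 G s t :=
  mem_plus_none.2 (Or.inr rfl)

theorem z2t {G : Finset (Sym2 V)} {s t : V} : s(some none, some (some t)) ∈ plus2 G s t :=
  mem_plus_some.2 (mem_plus_none.2 (Or.inl rfl))

theorem mem_plus2 {G : Finset (Sym2 V)} {s t x y : V} :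
    s(some (some x), some (some y)) ∈ plus2 G s t ↔ s(x, y) ∈ G :=
  mem_plus_some.trans mem_plus_some

/-- One side contains `z1`, `z2` and `s`. -/
theorem disc_two {G : Finset (Sym2 V)} {s t : V} {C D : Finset (Option (Option V))}
    (hst : s ≠ t) (hD : D.Nonempty) (hCD : Disjoint C D) (hW : C ∪ D = univ.erase (some (some t)))
    (hn : ∀ x ∈ C, ∀ y ∈ D, s(x, y) ∉ plus2 G s t) (hz : none ∈ C) : Disc (univ.erase t) G := by
  have hz2 : some none ∈ C := by
    have h1 : some none ∈ C ∪ D := by
      rw [hW]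
      simp
    rcases mem_union.1 h1 with h | h
    · exact h
    · exact absurd z1z2 (hn _ hz _ h)
  have hs : some (some s) ∈ C := by
    have h1 : some (some s) ∈ C ∪ D := by
      rw [hW]
      simp [hst]
    rcases mem_union.1 h1 with h | h
    · exact h
    · exact absurd z1s (hn _ hz _ h)
  obtain ⟨d, hd⟩ := hD
  obtain ⟨d', rfl⟩ : ∃ d' : V, d = some (some d') := by
    cases d with
    | none => exact absurd hd (disjoint_left.1 hCD hz)
    | some d =>
      cases d with
      | none => exact absurd hd (disjoint_left.1 hCD hz2)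
      | some d => exact ⟨d, rfl⟩
  refine ⟨univ.filter fun x => some (some x) ∈ C, univ.filter fun x => some (some x) ∈ D,
    ⟨s, by simp [hs]⟩, ⟨d', by simp [hd]⟩, ?_, ?_, ?_⟩
  · rw [disjoint_left]
    intro x hx hx'
    exact disjoint_left.1 hCD (mem_filter.1 hx).2 (mem_filter.1 hx').2
  · ext x
    have h1 : some (some x) ∈ C ∪ D ↔ some (some x) ∈ univ.erase (some (some t)) := by rw [hW]
    simp only [mem_union, mem_erase, mem_univ, and_true, ne_eq, Option.some.injEq] at h1
    simp only [mem_union, mem_filter, mem_univ, true_and, mem_erase, and_true, ne_eq]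
    exact h1
  · intro x hx y hy hxy
    exact hn _ (mem_filter.1 hx).2 _ (mem_filter.1 hy).2 (mem_plus2.2 hxy)

theorem plus2_tc {G : Finset (Sym2 V)} {s t : V} (hst : s ≠ t) (hc : ¬ Disc univ G)
    (hcut : ∀ z, ¬ Disc (univ.erase z) G) :
    ¬ Disc univ (plus2 G s t) ∧ ∀ z, ¬ Disc (univ.erase z) (plus2 G s t) := by
  have hu : ¬ Disc univ (plus G t t) := by
    intro h
    rcases disc_plus (W := univ) (fun x => by simp) h with h | h
    · exact hc h
    · exact h.2.1 (mem_univ _)
  constructor
  · intro h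
    rcases disc_plus (W := univ) (fun x => by simp) h with h | h
    · exact hu h
    · exact h.2.1 (mem_univ _)
  · intro z h
    cases z with
    | none =>
      rcases disc_plus (W := univ) (fun x => by simp) h with h | h
      · exact hu h
      · exact h.2.1 (mem_univ _)
    | some z =>
      cases z with
      | none =>
        rcases disc_plus (W := univ.erase none) (fun x => by simp) h with h | h
        · rcases disc_plus (W := univ) (fun x => by simp) h with h | h
          · exact hc h
          · exact h.2.1 (mem_univ _)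
        · exact h.2.1 (by simp)
      | some v =>
        by_cases hv : v = t
        · subst hv
          obtain ⟨C, D, hC, hD, hCD, hW, hn⟩ := h
          have h1 : none ∈ C ∪ D := by
            rw [hW]
            simp
          rcases mem_union.1 h1 with h | h
          · exact hcut v (disc_two hst hD hCD hW hn h)
          · refine hcut v (disc_two hst hC hCD.symm (by rw [union_comm]; exact hW) ?_ h)
            intro x hx y hy hxy
            exact hn y hy x hx (by rw [Sym2.eq_swap]; exact hxy)
        · rcases disc_plus (W := univ.erase (some v)) (fun x => by simp) h with h | h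
          · rcases disc_plus (W := univ.erase v) (fun x => by simp) h with h | h
            · exact hcut v h
            · exact h.2.1 (mem_erase.2 ⟨Ne.symm hv, mem_univ _⟩)
          · exact h.2.2 (by simp)

/-- The edges of `F` at the new vertex. -/
theorem at_none {W : Type*} [DecidableEq W] {H : Finset (Sym2 W)} {a b : W} (hab : a ≠ b)
    {F : Finset (Sym2 (Option W))} (hF : F ⊆ plus H a b) (h2 : dg F none = 2) :
    s(none, some a) ∈ F ∧ s(none, some b) ∈ F := by
  have hnn : s((none : Option W), some a) ≠ s(none, some b) := by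
    intro h
    rw [Sym2.eq_iff] at h
    simp [hab] at h
  have hsub : (F.filter fun e => none ∈ e) ⊆ {s(none, some a), s(none, some b)} := by
    intro e he
    obtain ⟨h3, h4⟩ := mem_filter.1 he
    obtain ⟨x, rfl⟩ := Sym2.mem_iff_exists.1 h4
    have h5 := hF h3
    cases x with
    | none => exact absurd h5 none_none
    | some x =>
      rcases mem_plus_none.1 h5 with rfl | rfl
      · simp
      · simp
  have heq : (F.filter fun e => none ∈ e) = {s(none, some a), s(none, some b)} := by
    refine eq_of_subset_of_card_le hsub ?_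
    have h3 := h2
    unfold dg at h3
    rw [h3, card_pair hnn]
  have h3 : ∀ x, x = a ∨ x = b → s(none, some x) ∈ F := by
    intro x hx
    have h9 : s(none, some x) ∈ F.filter fun e => none ∈ e := by
      rw [heq]
      rcases hx with rfl | rfl
      · simp
      · simp
    exact (mem_filter.1 h9).1
  exact ⟨h3 a (Or.inl rfl), h3 b (Or.inr rfl)⟩

/-- At `z2` the only edges are those to `z1` and `t`. -/
theorem at_z2 {G : Finset (Sym2 V)} {s t : V} {F : Finset (Sym2 (Option (Option V)))}
    (hF : F ⊆ plus2 G s t) (h2 : dg F (some none) = 2) : s(some none, some (some t)) ∈ F := by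
  by_contra hcon
  have hsub : (F.filter fun e => some none ∈ e) ⊆ {s(some none, none)} := by
    intro e he
    obtain ⟨h3, h4⟩ := mem_filter.1 he
    obtain ⟨x, rfl⟩ := Sym2.mem_iff_exists.1 h4
    have h5 := hF h3
    cases x with
    | none => simp
    | some x =>
      have h6 := mem_plus_some.1 h5
      cases x with
      | none => exact absurd h6 none_none
      | some x =>
        rcases mem_plus_none.1 h6 with rfl | rfl
        · exact absurd h3 hcon
        · exact absurd h3 hcon
  have h3 := card_le_card hsub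
  rw [card_singleton] at h3
  unfold dg at h2
  omega

/-- A vertex of a 2-connected `G` and the two new vertices are covered by disjoint cycles of length at least five. -/
theorem pair_5 {G : Finset (Sym2 V)} (hG : ∀ e ∈ G, ¬ e.IsDiag)
    (h3 : 3 ≤ Fintype.card V) {s t : V} (hst : s ≠ t) (hc : ¬ Disc univ G)
    (hcut : ∀ z, ¬ Disc (univ.erase z) G) (w : V) : CovF5 (plus2 G s t) (up2 {w}) := by
  obtain ⟨w', hw's, hw't, hw'⟩ : ∃ w' : V, w' ≠ s ∧ w' ≠ t ∧ (w ≠ s → w ≠ t → w' = w) := by
    by_cases h1 : w ≠ s ∧ w ≠ t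
    · exact ⟨w, h1.1, h1.2, fun _ _ => rfl⟩
    · obtain ⟨x, -, hx⟩ : ∃ x ∈ (univ : Finset V), x ∉ ({s, t} : Finset V) := by
        refine exists_mem_notMem_of_card_lt_card (lt_of_le_of_lt card_le_two ?_)
        rw [card_univ]
        omega
      rw [mem_insert, mem_singleton] at hx
      push Not at hx
      exact ⟨x, hx.1, hx.2, fun h2 h4 => absurd ⟨h2, h4⟩ h1⟩
  have hdiag := plus2_diag (s := s) (t := t) hG
  obtain ⟨F, h1, h2, h5, h6, h7⟩ := cov_pair_raw hdiag (plus2_tc hst hc hcut).1
    (plus2_tc hst hc hcut).2 (z := none) (w := some (some w')) (by simp)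
    (by
      intro h
      rcases mem_plus_none.1 h with h | h
      · exact hw's (Option.some.inj h)
      · exact absurd h (by simp))
  obtain ⟨e1, e2⟩ := at_none (by simp) h1 h5
  have d2 : dg F (some none) = 2 := by
    rcases h2 (some none) with h | h
    · exact absurd h (dg_pos' e2).ne'
    · exact h
  have ds : dg F (some (some s)) = 2 := by
    rcases h2 (some (some s)) with h | h
    · exact absurd h (dg_pos' e1).ne'
    · exact h
  have e3 := at_z2 h1 d2
  have dt : dg F (some (some t)) = 2 := by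
    rcases h2 (some (some t)) with h | h
    · exact absurd h (dg_pos' e3).ne'
    · exact h
  have hbig : ∀ T : Finset (Option (Option V)), (∀ a ∈ T, ∀ b, s(a, b) ∈ F → b ∈ T) →
      ∀ x ∈ T, dg F x ≠ 0 → 5 ≤ T.card := by
    intro T hT x hx hx0
    have h8 := h7 T hT x hx hx0
    have hsub : ({none, some none, some (some s), some (some t), some (some w')} :
        Finset (Option (Option V))) ⊆ T := by
      intro y hy
      simp only [mem_insert, mem_singleton] at hy
      rcases hy with rfl | rfl | rfl | rfl | rfl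
      · exact h8 _ (by omega)
      · exact h8 _ (by omega)
      · exact h8 _ (by omega)
      · exact h8 _ (by omega)
      · exact h8 _ (by omega)
    refine le_trans (le_of_eq ?_) (card_le_card hsub)
    rw [card_insert_of_notMem, card_insert_of_notMem, card_insert_of_notMem, card_insert_of_notMem,
      card_singleton]
    · simp [Ne.symm hw't]
    · simp [hst, Ne.symm hw's]
    · simp
    · simp
  have hFd : ∀ e ∈ F, ¬ e.IsDiag := fun e he => hdiag e (h1 he)
  refine ⟨F, h1, h2, ⟨?_, ?_⟩, ?_⟩
  · intro x y u hxy hyu hxu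
    have h8 := hbig {x, y, u} (tri_closed hFd h2 hxy hyu hxu) x (by simp) (dg_pos hxy).ne'
    have h9 : ({x, y, u} : Finset (Option (Option V))).card ≤ 3 := card_le_three
    omega
  · intro x y u v hxu hyv hxy hyu huv hvx
    have hcl : ∀ a ∈ ({x, y, u, v} : Finset (Option (Option V))), ∀ b, s(a, b) ∈ F →
        b ∈ ({x, y, u, v} : Finset (Option (Option V))) := by
      intro a ha b hab
      simp only [mem_insert, mem_singleton] at ha ⊢
      rcases ha with rfl | rfl | rfl | rfl
      · rcases tri_closed_one hFd h2 hxy (by rw [Sym2.eq_swap]; exact hvx) hyv hab with h | h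
        · exact Or.inr (Or.inl h)
        · exact Or.inr (Or.inr (Or.inr h))
      · rcases tri_closed_one hFd h2 (y := x) (u := u) (by rw [Sym2.eq_swap]; exact hxy) hyu hxu hab
          with h | h
        · exact Or.inl h
        · exact Or.inr (Or.inr (Or.inl h))
      · rcases tri_closed_one hFd h2 (y := y) (u := v) (by rw [Sym2.eq_swap]; exact hyu) huv hyv hab
          with h | h
        · exact Or.inr (Or.inl h)
        · exact Or.inr (Or.inr (Or.inr h))
      · rcases tri_closed_one hFd h2 (y := x) (u := u) hvx (by rw [Sym2.eq_swap]; exact huv) hxu hab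
          with h | h
        · exact Or.inl h
        · exact Or.inr (Or.inr (Or.inl h))
    have h8 := hbig {x, y, u, v} hcl x (by simp) (dg_pos hxy).ne'
    have h9 : ({x, y, u, v} : Finset (Option (Option V))).card ≤ 4 := card_le_four
    omega
  · intro v hv
    unfold up2 at hv
    simp only [mem_insert, image_singleton, mem_singleton] at hv
    rcases hv with rfl | rfl | rfl
    · exact h5
    · exact d2
    · by_cases h8 : w = s
      · rw [h8]
        exact ds
      · by_cases h9 : w = t
        · rw [h9]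
          exact dt
        · rw [← hw' h8 h9]
          exact h6

/-- `A` and the two new vertices are covered by disjoint cycles of length at least five of `plus2 G s t`. -/
def Pi5 (s t : V) (G : Finset (Sym2 V)) (A : Finset V) : Prop := CovF5 (plus2 G s t) (up2 A)

variable {s t : V}

theorem st5_mono (G G' : Finset (Sym2 V)) (h : G ⊆ G') (A : Finset V) (hA : Pi5 s t G A) :
    Pi5 s t G' A := covF5_mono (plus2_mono h) hA

theorem st5_dn (G : Finset (Sym2 V)) (A B : Finset V) (h : A ⊆ B) (hB : Pi5 s t G B) :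
    Pi5 s t G A :=
  covF5_sub (insert_subset_insert _ (insert_subset_insert _ (image_subset_image h))) hB

theorem st5_h1 (h3 : 3 ≤ Fintype.card V) (hst : s ≠ t) (G : Finset (Sym2 V)) (hG : G ⊆ LW univ)
    (hT : H98TF.TC G) (v : V) : Pi5 s t G {v} :=
  pair_5 (H85TF.not_diag_of_LW hG) h3 hst hT.1 hT.2 v

theorem st5_E (G : Finset (Sym2 V)) (hG : G ⊆ LW univ) (A : Finset V) (b d : V) (U : Finset V)
    (hb : Pi5 s t G (insert b A)) (hd : Pi5 s t G (insert d A)) (hbU : b ∈ U) (hdU : d ∈ U)
    (hU : ¬ Disc U G) (hin : ∀ u ∈ U, u ≠ b → u ≠ d → ¬ Pi5 s t G (insert u A)) :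
    Pi5 s t G (insert b (insert d A)) := by
  have hins : ∀ (b : V) (A : Finset V), up2 (insert b A) = insert (some (some b)) (up2 A) := by
    intro b A
    unfold up2
    rw [image_insert, insert_comm (some none), insert_comm none]
  unfold Pi5 at hb hd hin ⊢
  simp only [hins] at hb hd hin ⊢
  refine exch5_set (plus2_diag (H85TF.not_diag_of_LW hG)) (U := (U.image some).image some) hb hd
    (mem_image_of_mem _ (mem_image_of_mem _ hbU)) (mem_image_of_mem _ (mem_image_of_mem _ hdU)) ?_ ?_
  · intro h
    rcases disc_plus (W := U.image some) (fun x => by simp) h with h | h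
    · rcases disc_plus (W := U) (fun x => by simp) h with h | h
      · exact hU h
      · simp at h
    · simp at h
  · intro u hu h1 h2
    obtain ⟨u', hu', rfl⟩ := mem_image.1 hu
    obtain ⟨u'', hu'', rfl⟩ := mem_image.1 hu'
    exact hin u'' hu'' (fun e => h1 (by rw [e])) (fun e => h2 (by rw [e]))

end plus2

/-- Degrees of the restriction to the old vertices. -/
theorem dg_down {V : Type*} [DecidableEq V] {G : Finset (Sym2 V)} {a b : V}
    {F' : Finset (Sym2 (Option V))} (hF : F' ⊆ plus G a b) (v : V) :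
    dg F' (some v) = dg (G.filter fun e => Sym2.map some e ∈ F') v +
      if s(none, some v) ∈ F' then 1 else 0 := by
  have hN : s(none, some v) ∉ ((G.filter fun e => Sym2.map some e ∈ F').filter fun e => v ∈ e).image
      (Sym2.map some) := by
    intro h
    obtain ⟨e, -, he⟩ := mem_image.1 h
    induction e with
    | _ a b =>
      rw [Sym2.map_mk, Sym2.eq_iff] at he
      simp at he
  have key : (F'.filter fun e => some v ∈ e) =
      if s(none, some v) ∈ F' then
        insert s(none, some v) (((G.filter fun e => Sym2.map some e ∈ F').filter fun e => v ∈ e).image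
          (Sym2.map some))
      else ((G.filter fun e => Sym2.map some e ∈ F').filter fun e => v ∈ e).image (Sym2.map some) := by
    have h3 : ∀ w : V, s(some v, some w) ∈ F' ↔ s(some v, some w) ∈
        ((G.filter fun e => Sym2.map some e ∈ F').filter fun e => v ∈ e).image (Sym2.map some) := by
      intro w
      rw [mem_image]
      constructor
      · intro h
        refine ⟨s(v, w), mem_filter.2 ⟨mem_filter.2 ⟨mem_plus_some.1 (hF h), h⟩, by simp⟩, rfl⟩
      · rintro ⟨e, he, h⟩
        rw [← h]
        exact (mem_filter.1 (mem_filter.1 he).1).2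
    ext e
    rw [mem_filter]
    constructor
    · rintro ⟨h4, h5⟩
      obtain ⟨w, rfl⟩ := Sym2.mem_iff_exists.1 h5
      cases w with
      | none =>
        have h6 : s(none, some v) ∈ F' := by
          rw [Sym2.eq_swap]
          exact h4
        rw [if_pos h6, Sym2.eq_swap]
        exact mem_insert_self _ _
      | some w =>
        have h6 := (h3 w).1 h4
        split_ifs
        · exact mem_insert_of_mem h6
        · exact h6
    · intro h
      have h4 : e = s(none, some v) ∧ s(none, some v) ∈ F' ∨ e ∈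
          ((G.filter fun e => Sym2.map some e ∈ F').filter fun e => v ∈ e).image (Sym2.map some) := by
        split_ifs at h with h5
        · rcases mem_insert.1 h with h | h
          · exact Or.inl ⟨h, h5⟩
          · exact Or.inr h
        · exact Or.inr h
      rcases h4 with ⟨rfl, h5⟩ | h4
      · exact ⟨h5, by simp⟩
      · obtain ⟨e', he', rfl⟩ := mem_image.1 h4
        obtain ⟨h5, h6⟩ := mem_filter.1 he'
        refine ⟨(mem_filter.1 h5).2, ?_⟩
        exact Sym2.mem_map.2 ⟨v, h6, rfl⟩
  unfold dg
  rw [key]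
  by_cases hv : s(none, some v) ∈ F'
  · rw [if_pos hv, if_pos hv, card_insert_of_notMem hN, card_image_of_injective _ map_inj]
  · rw [if_neg hv, if_neg hv, card_image_of_injective _ map_inj, add_zero]

/-- From a cover of all vertices to the spanning subgraph. -/
theorem st5_univ {V : Type} [Fintype V] [DecidableEq V] {s t : V} (hst : s ≠ t)
    {G : Finset (Sym2 V)} (h : Pi5 s t G univ) :
    ∃ F ⊆ G, SFf F ∧ s(s, t) ∉ F ∧ ∀ v, dg F v = if v = s ∨ v = t then 1 else 2 := by
  obtain ⟨F', hF, -, hN, h6⟩ := h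
  have h7 : ∀ v, dg F' v = 2 := by
    intro v
    refine h6 v ?_
    unfold up2
    cases v with
    | none => exact mem_insert_self _ _
    | some v =>
      cases v with
      | none => simp
      | some v => simp
  obtain ⟨e1, e2⟩ := at_none (by simp) hF (h7 none)
  have e3 := at_z2 hF (h7 (some none))
  have hF1 : ((plus G t t).filter fun e => Sym2.map some e ∈ F') ⊆ plus G t t := filter_subset _ _
  have hd1 : ∀ v : V, dg ((plus G t t).filter fun e => Sym2.map some e ∈ F') (some v) =
      if v = s then 1 else 2 := by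
    intro v
    have h8 := dg_down hF (some v)
    rw [h7] at h8
    by_cases hv : v = s
    · subst hv
      rw [if_pos e1] at h8
      rw [if_pos rfl]
      omega
    · have h9 : s(none, some (some v)) ∉ F' := by
        intro h
        rcases mem_plus_none.1 (hF h) with h | h
        · exact hv (Option.some.inj h)
        · exact absurd h (by simp)
      rw [if_neg h9] at h8
      rw [if_neg hv]
      omega
  have hm : ∀ v : V, s(none, some v) ∈ ((plus G t t).filter fun e => Sym2.map some e ∈ F') ↔ v = t := by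
    intro v
    rw [mem_filter, mem_plus_none]
    constructor
    · rintro ⟨h | h, -⟩
      · exact h
      · exact h
    · rintro rfl
      exact ⟨Or.inl rfl, e3⟩
  refine ⟨G.filter fun e => Sym2.map some e ∈ ((plus G t t).filter fun e => Sym2.map some e ∈ F'),
    filter_subset _ _, ⟨?_, ?_⟩, ?_, ?_⟩
  · intro x y z h1 h2 h3
    exact hN.1 (some (some x)) (some (some y)) (some (some z)) (mem_filter.1 (mem_filter.1 h1).2).2
      (mem_filter.1 (mem_filter.1 h2).2).2 (mem_filter.1 (mem_filter.1 h3).2).2
  · intro x y z w hxz hyw h1 h2 h3 h4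
    exact hN.2 (some (some x)) (some (some y)) (some (some z)) (some (some w)) (by simpa using hxz)
      (by simpa using hyw) (mem_filter.1 (mem_filter.1 h1).2).2
      (mem_filter.1 (mem_filter.1 h2).2).2 (mem_filter.1 (mem_filter.1 h3).2).2
      (mem_filter.1 (mem_filter.1 h4).2).2
  · intro h1
    have h2 : s(some (some s), some (some t)) ∈ F' := (mem_filter.1 (mem_filter.1 h1).2).2
    exact hN.2 none (some (some s)) (some (some t)) (some none) (by simp) (by simp) e1 h2
      (by rw [Sym2.eq_swap]; exact e3) (by rw [Sym2.eq_swap]; exact e2)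
  · intro v
    have h8 := dg_down hF1 v
    rw [hd1] at h8
    by_cases hv : v = t
    · subst hv
      rw [if_pos ((hm v).2 rfl), if_neg (Ne.symm hst)] at h8
      rw [if_pos (Or.inr rfl)]
      omega
    · rw [if_neg (fun h => hv ((hm v).1 h))] at h8
      by_cases hs : v = s
      · rw [if_pos hs] at h8
        rw [if_pos (Or.inl hs)]
        omega
      · rw [if_neg hs] at h8
        rw [if_neg (by rintro (h | h); exacts [hs h, hv h])]
        omega

/-- PRESCRIBED PAIR, CYCLES OF LENGTH AT LEAST FIVE: a plane 2-connected `G` with a spanning union `F` of a path from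
`s` to `t` of length at least two and cycles of length at least five. -/
theorem plane_pair5 {V : Type} [Fintype V] [DecidableEq V] {cross : Sym2 V → Sym2 V → Prop}
    (hsymm : ∀ e f, cross e f → cross f e) (hHD : ∀ W, HD cross W) (h3 : 3 ≤ Fintype.card V)
    {s t : V} (hst : s ≠ t) :
    ∃ G : Finset (Sym2 V), G ⊆ LW univ ∧ Plane cross G ∧ H98TF.TC G ∧
      ∃ F ⊆ G, SFf F ∧ s(s, t) ∉ F ∧ ∀ v, dg F v = if v = s ∨ v = t then 1 else 2 := by
  obtain ⟨G, h1, h2, h4, h5⟩ := H98TF.generic hsymm hHD (by omega) (Pi5 s t)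
    (fun G G' h _ _ A hA => st5_mono G G' h A hA) (fun G _ _ A B h hB => st5_dn G A B h hB)
    (fun G hG hT v => st5_h1 h3 hst G hG hT v)
    (fun G hG _ A b d U hb hd hbU hdU hU hin => st5_E G hG A b d U hb hd hbU hdU hU hin)
  exact ⟨G, h1, h2, h4, st5_univ hst h5⟩

end H36R
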