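import Pool.Agent.Lib.H36R.P5
import Pool.Agent.Lib.H98TF.Exact
import Pool.Agent.Lib.H85TF.DrawX

/-!
# H36R, file P5X: the prescribed pair with exactly `2n - 3` edges and with cycles of length at least five, for drawings
-/

set_option autoImplicit false
set_option linter.unusedSectionVars false

open H53P SimpleDraw

namespace H36R

open Finset H98P H98Z H98M H63F H30F H63L H97W H85TF

/-- A graph without cycles of length `3` and `4` (in the form of adjacencies) has only cycles of length at least `5`. -/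
theorem five_le_length {V : Type*} {F : SimpleGraph V}
    (h3 : ∀ a b c, F.Adj a b → F.Adj b c → ¬ F.Adj a c)
    (h4 : ∀ x y z w, x ≠ z → y ≠ w → F.Adj x y → F.Adj y z → F.Adj z w → ¬ F.Adj w x)
    {v : V} (c : F.Walk v v) (hc : c.IsCycle) : 5 ≤ c.length := by
  have h5 := hc.three_le_length
  have hn := hc.support_nodup
  by_contra hlt
  match c, hc, h5, hlt, hn with
  | .nil, _, h5, _, _ => simp at h5
  | .cons _ .nil, _, h5, _, _ => simp at h5
  | .cons _ (.cons _ .nil), _, h5, _, _ => simp at h5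
  | .cons ha (.cons hb (.cons hd .nil)), _, _, _, _ => exact h3 _ _ _ ha hb hd.symm
  | .cons ha (.cons hb (.cons hd (.cons he .nil))), _, _, _, hn =>
    simp only [SimpleGraph.Walk.support_cons, SimpleGraph.Walk.support_nil, List.tail_cons,
      List.nodup_cons, List.mem_cons, List.not_mem_nil, or_false, not_or] at hn
    exact h4 _ _ _ _ (Ne.symm hn.2.1.2) hn.1.2.1 ha hb hd he
  | .cons _ (.cons _ (.cons _ (.cons _ (.cons _ _)))), _, _, hlt, _ =>
    simp at hlt

/-- PRESCRIBED PAIR, CYCLES OF LENGTH AT LEAST FIVE, at least `2n - 3` edges. -/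
theorem plane_pair5_exact {V : Type} [Fintype V] [DecidableEq V] {cross : Sym2 V → Sym2 V → Prop}
    (hsymm : ∀ e f, cross e f → cross f e) (hHD : ∀ W, HD cross W) (h3 : 3 ≤ Fintype.card V)
    {s t : V} (hst : s ≠ t) :
    ∃ G : Finset (Sym2 V), G ⊆ LW univ ∧ Plane cross G ∧ H98TF.TC G ∧ 2 * Fintype.card V ≤ G.card + 3 ∧
      ∃ F ⊆ G, SFf F ∧ s(s, t) ∉ F ∧ ∀ v, dg F v = if v = s ∨ v = t then 1 else 2 := by
  obtain ⟨G, h1, h2, h4, h5, h6⟩ := H98TF.genericExact hsymm hHD (by omega) (Pi5 s t)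
    (fun G G' h _ _ A hA => st5_mono G G' h A hA) (fun G _ _ A B h hB => st5_dn G A B h hB)
    (fun G hG hT v => st5_h1 h3 hst G hG hT v)
    (fun G hG _ A b d U hb hd hbU hdU hU hin => st5_E G hG A b d U hb hd hbU hdU hU hin)
  exact ⟨G, h1, h2, h4, h6, st5_univ hst h5⟩

theorem gr_adj {n : ℕ} {F : Finset (Sym2 (Fin n))} {a b : Fin n} (h : (gr F).Adj a b) : s(a, b) ∈ F := by
  rw [SimpleGraph.fromEdgeSet_adj] at h
  exact_mod_cast h.1

/-- Simple drawings: for all `s ≠ t` a plane 2-connected subdrawing with exactly `2n - 3` edges which contains a spanning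
union `F` of a path from `s` to `t` with an inner vertex and pairwise disjoint cycles of length at least five. -/
theorem pair5_drawing {n : ℕ} (hn : 3 ≤ n) (D : SimpleDrawing n) {s t : Fin n} (hst : s ≠ t) :
    ∃ G : SimpleGraph (Fin n), D.Plane G ∧ G.Connected ∧ (∀ v, (G.induce {w | w ≠ v}).Connected) ∧
      G.edgeSet.ncard = 2 * n - 3 ∧ ∃ F ≤ G,
        (∀ v, (F.neighborSet v).ncard = if v = s ∨ v = t then 1 else 2) ∧
        (∀ a b c, F.Adj a b → F.Adj b c → ¬ F.Adj a c) ∧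
        (∀ x y z w, x ≠ z → y ≠ w → F.Adj x y → F.Adj y z → F.Adj z w → ¬ F.Adj w x) ∧
        (∀ (v : Fin n) (c : F.Walk v v), c.IsCycle → 5 ≤ c.length) ∧ ¬ F.Adj s t := by
  obtain ⟨G, hGL, hGP, hT, hm, F, hF, hS, hnst, h2⟩ := plane_pair5_exact (H53P.crossT_symm (H53P.table D))
    (H98W.hd_table (H53P.table D)) (by rw [Fintype.card_fin]; exact hn) hst
  rw [Fintype.card_fin] at hm
  obtain ⟨H, h4, h5, h6, h7, h8, h9⟩ := toDrawingExact hn D hGL hGP hT.1 hT.2 hF (fun v => by
    rw [h2 v]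
    split_ifs <;> omega) hm
  have ht : ∀ a b c, (gr F).Adj a b → (gr F).Adj b c → ¬ (gr F).Adj a c :=
    fun a b c hab hbc hac => hS.1 a b c (gr_adj hab) (gr_adj hbc) (gr_adj hac)
  have hq : ∀ x y z w, x ≠ z → y ≠ w → (gr F).Adj x y → (gr F).Adj y z → (gr F).Adj z w → ¬ (gr F).Adj w x :=
    fun x y z w hxz hyw h1 h2 h3 h4 => hS.2 x y z w hxz hyw (gr_adj h1) (gr_adj h2) (gr_adj h3) (gr_adj h4)
  exact ⟨H, h4, h5, h6, h7, gr F, h8, fun v => (h9 v).trans (h2 v), ht, hq,
    fun v c hc => five_le_length ht hq c hc, fun h => hnst (gr_adj h)⟩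

end H36R
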