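import Pool.Agent.Lib.H36R.CP
import Pool.Agent.Lib.H85TF.Abs

/-!
# H36R, file PR: the functor for a prescribed pair `s`, `t`

`plus G s t` is `G` with a new vertex `none` joined to `s` and `t`. `P` is an abstract cover predicate on the graphs with
vertex set `Option V`.
-/

set_option autoImplicit false
set_option linter.unusedSectionVars false

namespace H36R

open Finset H98P H98Z H98M H63F H30F H85TF

section plus

variable {V : Type*} [DecidableEq V]

/-- `G` with a new vertex `none` joined to `s` and `t`. -/
def plus (G : Finset (Sym2 V)) (s t : V) : Finset (Sym2 (Option V)) :=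
  insert s(none, some s) (insert s(none, some t) (G.image (Sym2.map some)))

theorem map_inj : Function.Injective (Sym2.map (some : V → Option V)) :=
  Sym2.map.injective (Option.some_injective V)

theorem mem_plus_some {G : Finset (Sym2 V)} {s t x y : V} :
    s(some x, some y) ∈ plus G s t ↔ s(x, y) ∈ G := by
  unfold plus
  rw [mem_insert, mem_insert, mem_image]
  constructor
  · rintro (h | h | ⟨e, he, h⟩)
    · rw [Sym2.eq_iff] at h
      simp at h
    · rw [Sym2.eq_iff] at h
      simp at h
    · have h1 : e = s(x, y) := map_inj (by rw [h]; rfl)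
      rwa [← h1]
  · intro h
    exact Or.inr (Or.inr ⟨s(x, y), h, rfl⟩)

theorem mem_plus_none {G : Finset (Sym2 V)} {s t x : V} :
    s(none, some x) ∈ plus G s t ↔ x = s ∨ x = t := by
  unfold plus
  rw [mem_insert, mem_insert, mem_image]
  constructor
  · rintro (h | h | ⟨e, he, h⟩)
    · rw [Sym2.eq_iff] at h
      simp at h
      exact Or.inl h
    · rw [Sym2.eq_iff] at h
      simp at h
      exact Or.inr h
    · induction e with
      | _ a b =>
        rw [Sym2.map_mk, Sym2.eq_iff] at h
        simp at h
  · rintro (rfl | rfl)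
    · exact Or.inl rfl
    · exact Or.inr (Or.inl rfl)

theorem none_none {G : Finset (Sym2 V)} {s t : V} : s((none : Option V), none) ∉ plus G s t := by
  unfold plus
  rw [mem_insert, mem_insert, mem_image]
  rintro (h | h | ⟨e, he, h⟩)
  · rw [Sym2.eq_iff] at h
    simp at h
  · rw [Sym2.eq_iff] at h
    simp at h
  · induction e with
    | _ a b =>
      rw [Sym2.map_mk, Sym2.eq_iff] at h
      simp at h

theorem plus_diag {G : Finset (Sym2 V)} {s t : V} (hG : ∀ e ∈ G, ¬ e.IsDiag) :
    ∀ e ∈ plus G s t, ¬ e.IsDiag := by
  intro e he hd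
  induction e with
  | _ a b =>
    rw [Sym2.mk_isDiag_iff] at hd
    subst hd
    cases a with
    | none => exact none_none he
    | some x => exact hG _ (mem_plus_some.1 he) (by simp)

theorem plus_mono {G G' : Finset (Sym2 V)} {s t : V} (h : G ⊆ G') : plus G s t ⊆ plus G' s t :=
  insert_subset_insert _ (insert_subset_insert _ (image_subset_image h))

theorem disc_plus {G : Finset (Sym2 V)} {s t : V} {W : Finset V} {W' : Finset (Option V)}
    (hW' : ∀ x, some x ∈ W' ↔ x ∈ W) (h : Disc W' (plus G s t)) :
    Disc W G ∨ (none ∈ W' ∧ s ∉ W ∧ t ∉ W) := by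
  obtain ⟨C, D, ⟨c, hc⟩, ⟨d, hd⟩, hCD, hW, hn⟩ := h
  by_cases hC : (W.filter fun x => some x ∈ C).Nonempty
  · by_cases hD : (W.filter fun x => some x ∈ D).Nonempty
    · left
      refine ⟨_, _, hC, hD, ?_, ?_, ?_⟩
      · rw [disjoint_left]
        intro x hx hx'
        exact disjoint_left.1 hCD (mem_filter.1 hx).2 (mem_filter.1 hx').2
      · ext x
        rw [mem_union, mem_filter, mem_filter]
        constructor
        · rintro (h | h)
          · exact h.1
          · exact h.1
        · intro hx
          have h1 : some x ∈ C ∪ D := by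
            rw [hW]
            exact (hW' x).2 hx
          rcases mem_union.1 h1 with h | h
          · exact Or.inl ⟨hx, h⟩
          · exact Or.inr ⟨hx, h⟩
      · intro x hx y hy hxy
        exact hn _ (mem_filter.1 hx).2 _ (mem_filter.1 hy).2 (mem_plus_some.2 hxy)
    · right
      have hD' : ∀ x, some x ∉ D := by
        intro x hx
        refine hD ⟨x, mem_filter.2 ⟨(hW' x).1 ?_, hx⟩⟩
        rw [← hW]
        exact mem_union_right _ hx
      have hdn : d = none := by
        cases d with
        | none => rfl
        | some x => exact absurd hd (hD' x)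
      subst hdn
      have key : ∀ x ∈ W, s(none, some x) ∉ plus G s t := by
        intro x hx h1
        have h2 : some x ∈ C ∪ D := by
          rw [hW]
          exact (hW' x).2 hx
        rcases mem_union.1 h2 with h | h
        · exact hn _ h _ hd (by rw [Sym2.eq_swap]; exact h1)
        · exact hD' x h
      refine ⟨?_, fun h => key s h (mem_plus_none.2 (Or.inl rfl)),
        fun h => key t h (mem_plus_none.2 (Or.inr rfl))⟩
      rw [← hW]
      exact mem_union_right _ hd
  · right
    have hC' : ∀ x, some x ∉ C := by
      intro x hx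
      refine hC ⟨x, mem_filter.2 ⟨(hW' x).1 ?_, hx⟩⟩
      rw [← hW]
      exact mem_union_left _ hx
    have hcn : c = none := by
      cases c with
      | none => rfl
      | some x => exact absurd hc (hC' x)
    subst hcn
    have key : ∀ x ∈ W, s(none, some x) ∉ plus G s t := by
      intro x hx h1
      have h2 : some x ∈ C ∪ D := by
        rw [hW]
        exact (hW' x).2 hx
      rcases mem_union.1 h2 with h | h
      · exact hC' x h
      · exact hn _ hc _ h h1
    refine ⟨?_, fun h => key s h (mem_plus_none.2 (Or.inl rfl)),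
      fun h => key t h (mem_plus_none.2 (Or.inr rfl))⟩
    rw [← hW]
    exact mem_union_left _ hc

theorem plus_tc [Fintype V] {G : Finset (Sym2 V)} {s t : V} (hst : s ≠ t) (hc : ¬ Disc univ G)
    (hcut : ∀ z, ¬ Disc (univ.erase z) G) :
    ¬ Disc univ (plus G s t) ∧ ∀ z, ¬ Disc (univ.erase z) (plus G s t) := by
  constructor
  · intro h
    rcases disc_plus (W := univ) (fun x => by simp) h with h | h
    · exact hc h
    · exact h.2.1 (mem_univ _)
  · intro z h
    cases z with
    | none =>
      rcases disc_plus (W := univ) (fun x => by simp) h with h | h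
      · exact hc h
      · exact h.2.1 (mem_univ _)
    | some z =>
      rcases disc_plus (W := univ.erase z) (fun x => by simp) h with h | h
      · exact hcut z h
      · obtain ⟨-, h1, h2⟩ := h
        have e1 : s = z := by
          by_contra hc
          exact h1 (mem_erase.2 ⟨hc, mem_univ _⟩)
        have e2 : t = z := by
          by_contra hc
          exact h2 (mem_erase.2 ⟨hc, mem_univ _⟩)
        exact hst (e1.trans e2.symm)

end plus

/-- THE FUNCTOR FOR A PAIR, with an abstract cover predicate `P` on `Option V`. -/
theorem pair_functor {V : Type*} [Fintype V] [DecidableEq V] {cross : Sym2 V → Sym2 V → Prop}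
    (hsymm : ∀ e f, cross e f → cross f e) (hHD : ∀ W, HD cross W) {s t : V} (hst : s ≠ t)
    (P : Finset (Sym2 (Option V)) → Finset (Option V) → Prop)
    (pm : ∀ E E' A, E ⊆ E' → P E A → P E' A) (pd : ∀ E A B, A ⊆ B → P E B → P E A)
    (pe : ∀ E : Finset (Sym2 (Option V)), (∀ e ∈ E, ¬ e.IsDiag) →
      ∀ (A : Finset (Option V)) (b d : Option V) (U : Finset (Option V)), P E (insert b A) →
      P E (insert d A) → b ∈ U → d ∈ U → ¬ Disc U E →
      (∀ u ∈ U, u ≠ b → u ≠ d → ¬ P E (insert u A)) → P E (insert b (insert d A)))
    (pp : ∀ G : Finset (Sym2 V), (∀ e ∈ G, ¬ e.IsDiag) → ¬ Disc univ G →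
      (∀ z, ¬ Disc (univ.erase z) G) → ∀ w, P (plus G s t) {none, some w}) :
    ∃ G : Finset (Sym2 V), G ⊆ LW univ ∧ Plane cross G ∧ ¬ Disc univ G ∧
      (∀ z, ¬ Disc (univ.erase z) G) ∧ P (plus G s t) univ := by
  obtain ⟨G, -, hGL, hGp, hac⟩ := functor hsymm hHD ⟨s, t, hst⟩
    (fun G W => Disc W G ∧ ((Disc univ G ∨ ∃ z, Disc (univ.erase z) G) ∨
      ¬ P (plus G s t) (insert none (W.image some))))
    (by
      rintro G G' hGG - - - W ⟨h1, h2⟩
      refine ⟨disc_anti hGG h1, ?_⟩
      rcases h2 with (h2 | ⟨z, h2⟩) | h2
      · exact Or.inl (Or.inl (disc_anti hGG h2))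
      · exact Or.inl (Or.inr ⟨z, disc_anti hGG h2⟩)
      · exact Or.inr fun h => h2 (pm _ _ _ (plus_mono hGG) h))
    (fun G W _ _ _ h => h.1)
  have hE := not_diag_of_LW hGL
  by_cases hd : Disc univ G ∨ ∃ z, Disc (univ.erase z) G
  · refine absurd ?_ hac
    have h1 : (fun W => Disc W G ∧ ((Disc univ G ∨ ∃ z, Disc (univ.erase z) G) ∨
        ¬ P (plus G s t) (insert none (W.image some)))) = fun W : Finset V => Disc W G := by
      funext W
      exact propext ⟨fun h => h.1, fun h => ⟨h, Or.inl hd⟩⟩
    rw [h1]
    exact H30D.ac_disc G hd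
  · have hd' := hd
    push Not at hd'
    refine ⟨G, hGL, hGp, hd'.1, hd'.2, ?_⟩
    by_contra hcov
    refine hac ?_
    have h1 : (fun W => Disc W G ∧ ((Disc univ G ∨ ∃ z, Disc (univ.erase z) G) ∨
        ¬ P (plus G s t) (insert none (W.image some)))) =
        fun W : Finset V => ¬ P (plus G s t) (insert none (W.image some)) ∧ Disc W G := by
      funext W
      refine propext ⟨fun h => ⟨?_, h.1⟩, fun h => ⟨h.2, Or.inr h.1⟩⟩
      rcases h.2 with h2 | h2
      · exact absurd h2 hd
      · exact h2
    rw [h1]
    have hP := pp G hE hd'.1 hd'.2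
    have hins : ∀ (b : V) (A : Finset V), insert (none : Option V) ((insert b A).image some) =
        insert (some b) (insert none (A.image some)) := by
      intro b A
      rw [image_insert, insert_comm]
    refine H96TF.ac_X G (fun A => P (plus G s t) (insert none (A.image some))) ?_ ?_ ?_ ?_ ?_
    · intro A B hAB hB
      exact pd _ _ _ (insert_subset_insert _ (image_subset_image hAB)) hB
    · refine pd _ _ _ ?_ (hP s)
      simp
    · intro v
      have h2 : insert (none : Option V) (({v} : Finset V).image some) = {none, some v} := by simp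
      rw [h2]
      exact hP v
    · intro A b d U hb hd hbU hdU hU hin
      simp only [hins] at hb hd hin ⊢
      refine pe _ (plus_diag hE) _ _ _ (U.image some) hb hd (mem_image_of_mem _ hbU)
        (mem_image_of_mem _ hdU) ?_ ?_
      · intro h
        rcases disc_plus (W := U) (fun x => by simp) h with h | h
        · exact hU h
        · simp at h
      · intro u hu h1 h2
        obtain ⟨u', hu', rfl⟩ := mem_image.1 hu
        exact hin u' hu' (fun e => h1 (by rw [e])) (fun e => h2 (by rw [e]))
    · have h2 : insert (none : Option V) ((univ : Finset V).image some) = univ := by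
        ext x
        cases x <;> simp
      rw [h2]
      exact hcov

/-- The cover predicate on `Option V`, translated to `V`. -/
theorem dg_restrict {V : Type*} [DecidableEq V] {G : Finset (Sym2 V)} {s t : V} (hst : s ≠ t)
    {F' : Finset (Sym2 (Option V))} (hF : F' ⊆ plus G s t) (h2 : ∀ v, dg F' v = 2) (v : V) :
    dg (G.filter fun e => Sym2.map some e ∈ F') v = if v = s ∨ v = t then 1 else 2 := by
  have hnn : s((none : Option V), some s) ≠ s(none, some t) := by
    intro h
    rw [Sym2.eq_iff] at h
    simp [hst] at h
  have hsub : (F'.filter fun e => none ∈ e) ⊆ {s(none, some s), s(none, some t)} := by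
    intro e he
    obtain ⟨h3, h4⟩ := mem_filter.1 he
    obtain ⟨w, rfl⟩ := Sym2.mem_iff_exists.1 h4
    have h5 := hF h3
    cases w with
    | none => exact absurd h5 none_none
    | some x =>
      rcases mem_plus_none.1 h5 with rfl | rfl
      · simp
      · simp
  have heq : (F'.filter fun e => none ∈ e) = {s(none, some s), s(none, some t)} := by
    refine eq_of_subset_of_card_le hsub ?_
    have h3 := h2 none
    unfold dg at h3
    rw [h3, card_pair hnn]
  have hs : s(none, some s) ∈ F' := by
    have h3 : s(none, some s) ∈ F'.filter fun e => none ∈ e := by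
      rw [heq]
      simp
    exact (mem_filter.1 h3).1
  have ht : s(none, some t) ∈ F' := by
    have h3 : s(none, some t) ∈ F'.filter fun e => none ∈ e := by
      rw [heq]
      simp
    exact (mem_filter.1 h3).1
  have hnv : s(none, some v) ∈ F' ↔ v = s ∨ v = t := by
    constructor
    · intro h
      exact mem_plus_none.1 (hF h)
    · rintro (rfl | rfl)
      · exact hs
      · exact ht
  have hN : s(none, some v) ∉ ((G.filter fun e => Sym2.map some e ∈ F').filter fun e => v ∈ e).image
      (Sym2.map some) := by
    intro h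
    obtain ⟨e, -, he⟩ := mem_image.1 h
    induction e with
    | _ a b =>
      rw [Sym2.map_mk, Sym2.eq_iff] at he
      simp at he
  have key : (F'.filter fun e => some v ∈ e) =
      if v = s ∨ v = t then
        insert s(none, some v) (((G.filter fun e => Sym2.map some e ∈ F').filter fun e => v ∈ e).image
          (Sym2.map some))
      else ((G.filter fun e => Sym2.map some e ∈ F').filter fun e => v ∈ e).image (Sym2.map some) := by
    have h3 : ∀ w : V, s(some v, some w) ∈ F' ↔ s(some v, some w) ∈
        ((G.filter fun e => Sym2.map some e ∈ F').filter fun e => v ∈ e).image (Sym2.map some) := by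
      intro w
      rw [mem_image]
      constructor
      · intro h
        refine ⟨s(v, w), mem_filter.2 ⟨mem_filter.2 ⟨mem_plus_some.1 (hF h), h⟩, by simp⟩, rfl⟩
      · rintro ⟨e, he, h⟩
        rw [← h]
        exact (mem_filter.1 (mem_filter.1 he).1).2
    ext e
    rw [mem_filter]
    constructor
    · rintro ⟨h4, h5⟩
      obtain ⟨w, rfl⟩ := Sym2.mem_iff_exists.1 h5
      cases w with
      | none =>
        have h6 : s(none, some v) ∈ F' := by
          rw [Sym2.eq_swap]
          exact h4
        rw [if_pos (hnv.1 h6), Sym2.eq_swap]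
        exact mem_insert_self _ _
      | some w =>
        have h6 := (h3 w).1 h4
        split_ifs
        · exact mem_insert_of_mem h6
        · exact h6
    · intro h
      have h4 : e = s(none, some v) ∧ (v = s ∨ v = t) ∨ e ∈
          ((G.filter fun e => Sym2.map some e ∈ F').filter fun e => v ∈ e).image (Sym2.map some) := by
        split_ifs at h with h5
        · rcases mem_insert.1 h with h | h
          · exact Or.inl ⟨h, h5⟩
          · exact Or.inr h
        · exact Or.inr h
      rcases h4 with ⟨rfl, h5⟩ | h4
      · exact ⟨hnv.2 h5, by simp⟩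
      · obtain ⟨e', he', rfl⟩ := mem_image.1 h4
        obtain ⟨h5, h6⟩ := mem_filter.1 he'
        refine ⟨(mem_filter.1 h5).2, ?_⟩
        exact Sym2.mem_map.2 ⟨v, h6, rfl⟩
  have h3 := h2 (some v)
  unfold dg at h3 ⊢
  rw [key] at h3
  by_cases hv : v = s ∨ v = t
  · rw [if_pos hv] at h3 ⊢
    rw [card_insert_of_notMem hN, card_image_of_injective _ map_inj] at h3
    omega
  · rw [if_neg hv] at h3 ⊢
    rw [card_image_of_injective _ map_inj] at h3
    exact h3

/-- PRESCRIBED PAIR, plain form: a plane 2-connected `G` with a spanning union of a path from `s` to `t` and cycles. -/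
theorem plane_pair {V : Type} [Fintype V] [DecidableEq V] {cross : Sym2 V → Sym2 V → Prop}
    (hsymm : ∀ e f, cross e f → cross f e) (hHD : ∀ W, HD cross W) (h3 : 3 ≤ Fintype.card V)
    {s t : V} (hst : s ≠ t) :
    ∃ G : Finset (Sym2 V), G ⊆ LW univ ∧ Plane cross G ∧ ¬ Disc univ G ∧
      (∀ z, ¬ Disc (univ.erase z) G) ∧ ∃ F ⊆ G, ∀ v, dg F v = if v = s ∨ v = t then 1 else 2 := by
  obtain ⟨G, h1, h2, h4, h5, F', hF, -, h6⟩ := pair_functor hsymm hHD hst Cov
    (fun E E' A h hA => cov_edges h hA) (fun E A B h hB => cov_sub h hB)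
    (fun E hE A b d U hb hd hbU hdU hU hin => exch_set hE hb hd hbU hdU hU hin)
    (fun G hG hc hcut w => cov_pair (plus_diag hG) (by
      rw [Fintype.card_option]
      omega) (plus_tc hst hc hcut).1 (plus_tc hst hc hcut).2 _ _)
  exact ⟨G, h1, h2, h4, h5, _, filter_subset _ _, dg_restrict hst hF fun v => h6 v (mem_univ _)⟩

end H36R
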