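import Pool.Agent.Lib.H36R.CQ
import Pool.Agent.Lib.H50TF.Abs
import Pool.Agent.Lib.H98TF.Gen

/-!
# H36R, file PT: prescribed pair `s`, `t`: a spanning union of a path from `s` to `t` and cycles, without triangles

`PiST G s t A`: the vertex set `A` and the new vertex `none` are covered by pairwise disjoint cycles of length at least
four of `plus G s t`. The four properties `st_mono`, `st_dn`, `st_h1`, `st_E` are those of `H98TF.generic`.
-/

set_option autoImplicit false
set_option linter.unusedSectionVars false

namespace H36R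

open Finset H98P H98Z H98M H63F H30F H85TF H50TF H98TF

/-- A vertex of a 2-connected `G` and the new vertex are covered by disjoint cycles of length at least four. -/
theorem pair_tf {V : Type} [Fintype V] [DecidableEq V] {G : Finset (Sym2 V)} (hG : ∀ e ∈ G, ¬ e.IsDiag)
    (h3 : 3 ≤ Fintype.card V) {s t : V} (hst : s ≠ t) (hc : ¬ Disc univ G)
    (hcut : ∀ z, ¬ Disc (univ.erase z) G) (w : V) : Cov4 (plus G s t) {none, some w} := by
  obtain ⟨w', hw's, hw't, hw'⟩ : ∃ w' : V, w' ≠ s ∧ w' ≠ t ∧ (w ≠ s → w ≠ t → w' = w) := by
    by_cases h1 : w ≠ s ∧ w ≠ t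
    · exact ⟨w, h1.1, h1.2, fun _ _ => rfl⟩
    · obtain ⟨x, -, hx⟩ : ∃ x ∈ (univ : Finset V), x ∉ ({s, t} : Finset V) := by
        refine exists_mem_notMem_of_card_lt_card (lt_of_le_of_lt card_le_two ?_)
        rw [card_univ]
        omega
      rw [mem_insert, mem_singleton] at hx
      push Not at hx
      exact ⟨x, hx.1, hx.2, fun h2 h4 => absurd ⟨h2, h4⟩ h1⟩
  obtain ⟨F, h1, h2, h4, h5, h6⟩ := cov_pair_tf (plus_diag hG) (plus_tc hst hc hcut).1
    (plus_tc hst hc hcut).2 (z := none) (w := some w') (by simp)
    (by
      intro h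
      rcases mem_plus_none.1 h with h | h
      · exact hw's h
      · exact hw't h)
  refine ⟨F, h1, h4, h2, fun v hv => ?_⟩
  rcases mem_insert.1 hv with rfl | hv
  · exact h5
  rw [mem_singleton.1 hv]
  by_cases h7 : w ≠ s ∧ w ≠ t
  · rw [← hw' h7.1 h7.2]
    exact h6
  · have hnn : s((none : Option V), some s) ≠ s(none, some t) := by
      intro h
      rw [Sym2.eq_iff] at h
      simp [hst] at h
    have hsub : (F.filter fun e => none ∈ e) ⊆ {s(none, some s), s(none, some t)} := by
      intro e he
      obtain ⟨h3, h4⟩ := mem_filter.1 he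
      obtain ⟨x, rfl⟩ := Sym2.mem_iff_exists.1 h4
      have h5 := h1 h3
      cases x with
      | none => exact absurd h5 none_none
      | some x =>
        rcases mem_plus_none.1 h5 with rfl | rfl
        · simp
        · simp
    have heq : (F.filter fun e => none ∈ e) = {s(none, some s), s(none, some t)} := by
      refine eq_of_subset_of_card_le hsub ?_
      have h3 := h5
      unfold dg at h3
      rw [h3, card_pair hnn]
    have hmem : s(none, some w) ∈ F := by
      have h8 : s(none, some w) ∈ F.filter fun e => none ∈ e := by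
        rw [heq]
        by_cases h9 : w = s
        · simp [h9]
        · by_cases h10 : w = t
          · simp [h10]
          · exact absurd ⟨h9, h10⟩ h7
      exact (mem_filter.1 h8).1
    rcases h4 (some w) with h8 | h8
    · exact absurd h8 (dg_pos' hmem).ne'
    · exact h8

/-- `A` and the new vertex are covered by disjoint cycles of length at least four of `plus G s t`. -/
def PiST {V : Type} [DecidableEq V] (s t : V) (G : Finset (Sym2 V)) (A : Finset V) : Prop :=
  Cov4 (plus G s t) (insert none (A.image some))

section props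

variable {V : Type} [Fintype V] [DecidableEq V] {s t : V}

theorem st_mono (G G' : Finset (Sym2 V)) (h : G ⊆ G') (A : Finset V) (hA : PiST s t G A) :
    PiST s t G' A := cov4_edges (plus_mono h) hA

theorem st_dn (G : Finset (Sym2 V)) (A B : Finset V) (h : A ⊆ B) (hB : PiST s t G B) :
    PiST s t G A := cov4_sub (insert_subset_insert _ (image_subset_image h)) hB

theorem st_h1 (h3 : 3 ≤ Fintype.card V) (hst : s ≠ t) (G : Finset (Sym2 V)) (hG : G ⊆ LW univ)
    (hT : TC G) (v : V) : PiST s t G {v} := by
  have h2 : insert (none : Option V) (({v} : Finset V).image some) = {none, some v} := by simp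
  unfold PiST
  rw [h2]
  exact pair_tf (H85TF.not_diag_of_LW hG) h3 hst hT.1 hT.2 v

theorem st_E (G : Finset (Sym2 V)) (hG : G ⊆ LW univ) (A : Finset V) (b d : V) (U : Finset V)
    (hb : PiST s t G (insert b A)) (hd : PiST s t G (insert d A)) (hbU : b ∈ U) (hdU : d ∈ U)
    (hU : ¬ Disc U G) (hin : ∀ u ∈ U, u ≠ b → u ≠ d → ¬ PiST s t G (insert u A)) :
    PiST s t G (insert b (insert d A)) := by
  have hins : ∀ (b : V) (A : Finset V), insert (none : Option V) ((insert b A).image some) =
      insert (some b) (insert none (A.image some)) := by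
    intro b A
    rw [image_insert, insert_comm]
  unfold PiST at hb hd hin ⊢
  simp only [hins] at hb hd hin ⊢
  refine H50TF.exch4_set (plus_diag (H85TF.not_diag_of_LW hG)) (U := U.image some) hb hd
    (mem_image_of_mem _ hbU) (mem_image_of_mem _ hdU) ?_ ?_
  · intro h
    rcases disc_plus (W := U) (fun x => by simp) h with h | h
    · exact hU h
    · simp at h
  · intro u hu h1 h2
    obtain ⟨u', hu', rfl⟩ := mem_image.1 hu
    exact hin u' hu' (fun e => h1 (by rw [e])) (fun e => h2 (by rw [e]))

/-- From a cover of all vertices to the spanning subgraph. -/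
theorem st_univ (hst : s ≠ t) {G : Finset (Sym2 V)} (h : PiST s t G univ) :
    ∃ F ⊆ G, NT F ∧ s(s, t) ∉ F ∧ ∀ v, dg F v = if v = s ∨ v = t then 1 else 2 := by
  obtain ⟨F', hF, -, hN, h6⟩ := h
  have h7 : ∀ v, dg F' v = 2 := by
    intro v
    refine h6 v ?_
    cases v with
    | none => exact mem_insert_self _ _
    | some v => exact mem_insert_of_mem (mem_image_of_mem _ (mem_univ _))
  refine ⟨_, filter_subset _ _, ?_, ?_, dg_restrict hst hF h7⟩
  · intro x y z h1 h2 h3
    exact hN (some x) (some y) (some z) (mem_filter.1 h1).2 (mem_filter.1 h2).2 (mem_filter.1 h3).2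
  · intro h1
    have h8 : s(some s, some t) ∈ F' := (mem_filter.1 h1).2
    have hnn : s((none : Option V), some s) ≠ s(none, some t) := by
      intro h
      rw [Sym2.eq_iff] at h
      simp [hst] at h
    have hsub : (F'.filter fun e => none ∈ e) ⊆ {s(none, some s), s(none, some t)} := by
      intro e he
      obtain ⟨h3, h4⟩ := mem_filter.1 he
      obtain ⟨x, rfl⟩ := Sym2.mem_iff_exists.1 h4
      have h5 := hF h3
      cases x with
      | none => exact absurd h5 none_none
      | some x =>
        rcases mem_plus_none.1 h5 with rfl | rfl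
        · simp
        · simp
    have heq : (F'.filter fun e => none ∈ e) = {s(none, some s), s(none, some t)} := by
      refine eq_of_subset_of_card_le hsub ?_
      have h3 := h7 none
      unfold dg at h3
      rw [h3, card_pair hnn]
    have hm : ∀ x, x = s ∨ x = t → s(none, some x) ∈ F' := by
      intro x hx
      have h9 : s(none, some x) ∈ F'.filter fun e => none ∈ e := by
        rw [heq]
        rcases hx with rfl | rfl
        · simp
        · simp
      exact (mem_filter.1 h9).1
    exact hN none (some s) (some t) (hm s (Or.inl rfl)) h8 (hm t (Or.inr rfl))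

/-- PRESCRIBED PAIR WITHOUT TRIANGLES: a plane 2-connected `G` with a spanning union `F` of a path from `s` to `t` of
length at least two and cycles of length at least four. -/
theorem plane_pair4 {cross : Sym2 V → Sym2 V → Prop} (hsymm : ∀ e f, cross e f → cross f e)
    (hHD : ∀ W, HD cross W) (h3 : 3 ≤ Fintype.card V) (hst : s ≠ t) :
    ∃ G : Finset (Sym2 V), G ⊆ LW univ ∧ Plane cross G ∧ TC G ∧
      ∃ F ⊆ G, NT F ∧ s(s, t) ∉ F ∧ ∀ v, dg F v = if v = s ∨ v = t then 1 else 2 := by
  obtain ⟨G, h1, h2, h4, h5⟩ := generic hsymm hHD (by omega) (PiST s t)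
    (fun G G' h _ _ A hA => st_mono G G' h A hA) (fun G _ _ A B h hB => st_dn G A B h hB)
    (fun G hG hT v => st_h1 h3 hst G hG hT v)
    (fun G hG _ A b d U hb hd hbU hdU hU hin => st_E G hG A b d U hb hd hbU hdU hU hin)
  exact ⟨G, h1, h2, h4, st_univ hst h5⟩

end props

end H36R
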